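import Pool.Agent.H274Z.RM.Sect

set_option autoImplicit false

namespace Pool.Agent.H274Z.RM

open IsLocalRing

variable {R : Type*} [CommRing R] [IsLocalRing R]

/-- Approximate coefficient rings. -/
structure Good (π : R) (n : ℕ) (A : Subring R) : Prop where
  pi : π ∈ A
  pow : ∀ x ∈ maximalIdeal R ^ (n + 1), x ∈ A
  res : ∀ x : R, ∃ a ∈ A, x - a ∈ maximalIdeal R
  div : ∀ a ∈ A, a ∈ maximalIdeal R → ∃ b ∈ A, a - π * b ∈ maximalIdeal R ^ (n + 1)

lemma good_zero (π : R) : Good π 0 ⊤ :=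
  ⟨trivial, fun _ _ => trivial, fun x => ⟨x, trivial, by simp⟩,
    fun a _ ha => ⟨0, trivial, by simpa using ha⟩⟩

lemma mul_mem_succ {n : ℕ} {x y : R} (hx : x ∈ maximalIdeal R) (hy : y ∈ maximalIdeal R ^ n) :
    x * y ∈ maximalIdeal R ^ (n + 1) := by
  rw [pow_succ']
  exact Ideal.mul_mem_mul hx hy

lemma mem_pow_le {n m : ℕ} (h : n ≤ m) {x : R} (hx : x ∈ maximalIdeal R ^ m) :
    x ∈ maximalIdeal R ^ n := Ideal.pow_le_pow_right h hx

lemma mem_of_succ {n : ℕ} {x : R} (hx : x ∈ maximalIdeal R ^ (n + 1)) : x ∈ maximalIdeal R :=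
  Ideal.pow_le_self (Nat.succ_ne_zero n) hx

lemma good_step {π : R} (hπ : π ∈ maximalIdeal R) (c : ℤ)
    (hc : ((ringChar (ResidueField R) : ℕ) : R) = π * c) {n : ℕ} {A : Subring R}
    (h : Good π n A) : ∃ A', Good π (n + 1) A' ∧ A' ≤ A ∧
      ∀ a ∈ A, ∃ a' ∈ A', a - a' ∈ maximalIdeal R ^ (n + 1) := by
  let I : Ideal A :=
    { carrier := {a | ∃ b ∈ A, (a : R) - π * b ∈ maximalIdeal R ^ (n + 2)}
      add_mem' := by
        rintro a a' ⟨b, hb, h1⟩ ⟨b', hb', h2⟩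
        refine ⟨b + b', add_mem hb hb', ?_⟩
        convert add_mem h1 h2 using 1
        push_cast
        ring
      zero_mem' := ⟨0, zero_mem _, by simp⟩
      smul_mem' := by
        rintro r a ⟨b, hb, h1⟩
        refine ⟨r * b, mul_mem r.2 hb, ?_⟩
        convert Ideal.mul_mem_left _ (r : R) h1 using 1
        simp only [smul_eq_mul]
        push_cast
        ring }
  have hI : ∀ a : A, a ∈ I ↔ ∃ b ∈ A, (a : R) - π * b ∈ maximalIdeal R ^ (n + 2) :=
    fun a => Iff.rfl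
  have hIm : ∀ a ∈ I, (a : R) ∈ maximalIdeal R := by
    rintro a ⟨b, -, h1⟩
    have := add_mem (mem_of_succ h1) (Ideal.mul_mem_right b _ hπ)
    simpa using this
  let f : A ⧸ I →+* ResidueField R := Ideal.Quotient.lift I ((residue R).comp A.subtype)
    (fun a ha => (residue_eq_zero_iff _).2 (hIm a ha))
  have hf : ∀ a : A, f (Ideal.Quotient.mk I a) = residue R a := fun a => rfl
  obtain ⟨σ, hσ⟩ := sect f (by
    intro t
    obtain ⟨x, rfl⟩ := residue_surjective t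
    obtain ⟨a, ha, h1⟩ := h.res x
    refine ⟨Ideal.Quotient.mk I ⟨a, ha⟩, ?_⟩
    rw [hf, eq_comm, ← sub_eq_zero, ← map_sub]
    exact (residue_eq_zero_iff _).2 h1) (by
    intro x y hx hy
    obtain ⟨x, rfl⟩ := Ideal.Quotient.mk_surjective x
    obtain ⟨y, rfl⟩ := Ideal.Quotient.mk_surjective y
    rw [hf, residue_eq_zero_iff] at hx hy
    obtain ⟨b, hb, h1⟩ := h.div x x.2 hx
    rw [← map_mul, Ideal.Quotient.eq_zero_iff_mem, hI]
    refine ⟨b * y, mul_mem hb y.2, ?_⟩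
    convert mul_mem_succ hy h1 using 1
    push_cast
    ring) (by
    rw [← map_natCast (Ideal.Quotient.mk I), Ideal.Quotient.eq_zero_iff_mem, hI]
    refine ⟨c, intCast_mem _ c, ?_⟩
    push_cast
    rw [hc, sub_self]
    exact zero_mem _)
  let A' : Subring R := (σ.range.comap (Ideal.Quotient.mk I)).map A.subtype
  have hA' : ∀ x, x ∈ A' ↔ ∃ hx : x ∈ A, ∃ t, σ t = Ideal.Quotient.mk I ⟨x, hx⟩ := by
    intro x
    constructor
    · rintro ⟨a, ⟨t, ht⟩, rfl⟩
      exact ⟨a.2, t, ht⟩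
    · rintro ⟨hx, t, ht⟩
      exact ⟨⟨x, hx⟩, ⟨t, ht⟩, rfl⟩
  have hIA : ∀ a ∈ I, (a : R) ∈ A' := fun a ha => (hA' a).2 ⟨a.2, 0, by
    rw [map_zero, eq_comm, Ideal.Quotient.eq_zero_iff_mem]; exact ha⟩
  have hle : A' ≤ A := fun x hx => ((hA' x).1 hx).1
  have happ : ∀ a ∈ A, ∃ a' ∈ A', a - a' ∈ maximalIdeal R ^ (n + 1) := by
    intro a ha
    obtain ⟨a', ha'⟩ := Ideal.Quotient.mk_surjective (σ (residue R a))
    have h1 : a - a' ∈ maximalIdeal R := by
      rw [← residue_eq_zero_iff, map_sub, ← hf a', ha', hσ, sub_self]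
    obtain ⟨b, hb, h2⟩ := h.div _ (sub_mem ha a'.2) h1
    refine ⟨a' + π * b, add_mem ((hA' _).2 ⟨a'.2, _, ha'.symm⟩)
      (hIA ⟨π * b, mul_mem h.pi hb⟩ ⟨b, hb, by simp⟩), ?_⟩
    convert h2 using 1
    ring
  refine ⟨A', ⟨hIA ⟨π, h.pi⟩ ⟨1, one_mem _, by simp⟩, fun x hx => ?_, fun x => ?_,
    fun a ha ham => ?_⟩, hle, happ⟩
  · exact hIA ⟨x, h.pow x (mem_pow_le (Nat.le_succ _) hx)⟩ ⟨0, zero_mem _, by simpa using hx⟩
  · obtain ⟨a, ha, h1⟩ := h.res x
    obtain ⟨a', ha', h2⟩ := happ a ha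
    refine ⟨a', ha', ?_⟩
    convert add_mem h1 (mem_of_succ h2) using 1
    ring
  · obtain ⟨ha1, t, ht⟩ := (hA' a).1 ha
    have h1 : t = 0 := by
      rw [← hσ t, ht, hf]
      exact (residue_eq_zero_iff _).2 ham
    rw [h1, map_zero, eq_comm, Ideal.Quotient.eq_zero_iff_mem] at ht
    obtain ⟨b, hb, h2⟩ := ht
    obtain ⟨b', hb', h3⟩ := happ b hb
    refine ⟨b', hb', ?_⟩
    convert add_mem h2 (mul_mem_succ hπ h3) using 1
    ring

variable [hcpl : IsAdicComplete (maximalIdeal R) R]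

lemma haus {x : R} (h : ∀ n, x ∈ maximalIdeal R ^ n) : x = 0 := by
  refine IsHausdorff.haus' (I := maximalIdeal R) x fun n => ?_
  rw [SModEq.zero, smul_eq_mul, Ideal.mul_top]
  exact h n

lemma lim (u : ℕ → R) (h : ∀ j, u (j + 1) - u j ∈ maximalIdeal R ^ j) :
    ∃ L, ∀ j, L - u j ∈ maximalIdeal R ^ j := by
  obtain ⟨L, hL⟩ := IsPrecomplete.prec' (I := maximalIdeal R) u (by
    intro m n hmn
    rw [SModEq.sub_mem, smul_eq_mul, Ideal.mul_top]
    induction n, hmn using Nat.le_induction with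
    | base => simp
    | succ n hmn ih =>
      convert sub_mem ih (mem_pow_le hmn (h n)) using 1
      ring)
  refine ⟨L, fun j => ?_⟩
  have := (hL j).symm
  rwa [SModEq.sub_mem, smul_eq_mul, Ideal.mul_top] at this

/-- A closed coefficient ring, first form. -/
lemma exists_pre {π : R} (hπ : π ∈ maximalIdeal R) (c : ℤ)
    (hc : ((ringChar (ResidueField R) : ℕ) : R) = π * c) :
    ∃ O : Subring R, π ∈ O ∧ (∀ x : R, ∃ a ∈ O, x - a ∈ maximalIdeal R) ∧
      (∀ L : R, (∀ j, ∃ u ∈ O, L - u ∈ maximalIdeal R ^ j) → L ∈ O) ∧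
      ∀ a ∈ O, a ∈ maximalIdeal R → ∀ N, ∃ b ∈ O, a - π * b ∈ maximalIdeal R ^ N := by
  choose st hst using fun (n : ℕ) (A : {A : Subring R // Good π n A}) => good_step hπ c hc A.2
  let A : (n : ℕ) → {A : Subring R // Good π n A} := fun n =>
    Nat.rec ⟨⊤, good_zero π⟩ (fun n B => ⟨st n B, (hst n B).1⟩) n
  have hA1 : ∀ n, (A (n + 1)).1 ≤ (A n).1 := fun n => (hst n (A n)).2.1
  have hA2 : ∀ n, ∀ a ∈ (A n).1, ∃ a' ∈ (A (n + 1)).1, a - a' ∈ maximalIdeal R ^ (n + 1) :=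
    fun n => (hst n (A n)).2.2
  have hanti : Antitone fun n => (A n).1 := antitone_nat_of_succ_le hA1
  choose! g hg1 hg2 using hA2
  have hcl : ∀ L : R, (∀ j, ∃ u ∈ (A j).1, L - u ∈ maximalIdeal R ^ j) → L ∈ ⨅ n, (A n).1 := by
    intro L hL
    rw [Subring.mem_iInf]
    intro i
    obtain ⟨u, hu, h1⟩ := hL (i + 1)
    have := add_mem ((A i).2.pow _ h1) (hA1 i hu)
    simpa using this
  have hL1 : ∀ n, ∀ a ∈ (A n).1, ∃ o ∈ ⨅ n, (A n).1, a - o ∈ maximalIdeal R ^ (n + 1) := by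
    intro n a ha
    let u : ℕ → R := fun j => Nat.rec a (fun j y => g (n + j) y) j
    have hu1 : ∀ j, u j ∈ (A (n + j)).1 := by
      intro j
      induction j with
      | zero => exact ha
      | succ j ih => exact hg1 _ _ ih
    have hu2 : ∀ j, u j - u (j + 1) ∈ maximalIdeal R ^ (n + j + 1) := fun j => hg2 _ _ (hu1 j)
    have hu3 : ∀ j, a - u j ∈ maximalIdeal R ^ (n + 1) := by
      intro j
      induction j with
      | zero => change a - a ∈ _; simp
      | succ j ih =>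
        convert add_mem ih (mem_pow_le (by omega) (hu2 j)) using 1
        ring
    obtain ⟨L, hL⟩ := lim u (fun j => by
      have := neg_mem (mem_pow_le (show j ≤ n + j + 1 by omega) (hu2 j))
      rwa [neg_sub] at this)
    refine ⟨L, hcl L fun j => ⟨u j, hanti (Nat.le_add_left j n) (hu1 j), hL j⟩, ?_⟩
    convert sub_mem (hu3 (n + 1)) (hL (n + 1)) using 1
    ring
  refine ⟨⨅ n, (A n).1, Subring.mem_iInf.2 fun n => (A n).2.pi, fun x => ?_, fun L hL => ?_,
    fun a ha ham N => ?_⟩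
  · obtain ⟨o, ho, h1⟩ := hL1 0 x trivial
    exact ⟨o, ho, mem_of_succ h1⟩
  · refine hcl L fun j => ?_
    obtain ⟨u, hu, h1⟩ := hL j
    exact ⟨u, Subring.mem_iInf.1 hu j, h1⟩
  · obtain ⟨b, hb, h1⟩ := (A N).2.div a (Subring.mem_iInf.1 ha N) ham
    obtain ⟨o, ho, h2⟩ := hL1 N b hb
    refine ⟨o, ho, mem_pow_le (Nat.le_succ N) ?_⟩
    convert add_mem h1 (Ideal.mul_mem_left _ π h2) using 1
    ring

lemma div_exact {π : R} (hπ : π ∈ maximalIdeal R) (hnil : ∀ j, π ^ j ≠ 0) {O : Subring R}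
    (h1 : π ∈ O) (h3 : ∀ L : R, (∀ j, ∃ u ∈ O, L - u ∈ maximalIdeal R ^ j) → L ∈ O)
    (h4 : ∀ a ∈ O, a ∈ maximalIdeal R → ∀ N, ∃ b ∈ O, a - π * b ∈ maximalIdeal R ^ N) :
    ∀ a ∈ O, a ∈ maximalIdeal R → ∃ b ∈ O, a = π * b := by
  let P : ℕ → R → Prop := fun j y => ∀ N, ∃ o ∈ O, y - π ^ j * o ∈ maximalIdeal R ^ N
  have hstep : ∀ j y, P j y → ∃ t ∈ O, P (j + 1) (y - π ^ j * t) := by
    intro j y hy
    obtain ⟨N0, hN0⟩ : ∃ N0, π ^ j ∉ maximalIdeal R ^ N0 := by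
      by_contra hcon
      push Not at hcon
      exact hnil j (haus hcon)
    obtain ⟨t, ht, ht'⟩ := hy N0
    refine ⟨t, ht, fun N => ?_⟩
    obtain ⟨o, ho, ho'⟩ := hy (max N N0)
    have h5 : o - t ∈ maximalIdeal R := by
      by_contra hcon
      have hu : IsUnit (o - t) := notMem_maximalIdeal.1 hcon
      apply hN0
      rw [← Ideal.mul_unit_mem_iff_mem _ hu]
      convert sub_mem ht' (mem_pow_le (le_max_right _ _) ho') using 1
      ring
    obtain ⟨b, hb, hb'⟩ := h4 _ (sub_mem ho ht) h5 N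
    refine ⟨b, hb, ?_⟩
    convert add_mem (mem_pow_le (le_max_left _ _) ho') (Ideal.mul_mem_left _ (π ^ j) hb') using 1
    ring
  choose! g hg1 hg2 using hstep
  intro a ha ham
  let s : ℕ → R := fun j => Nat.rec 0 (fun j y => y + π ^ j * g (j + 1) (a - π * y)) j
  have hs : ∀ j, s (j + 1) = s j + π ^ j * g (j + 1) (a - π * s j) := fun j => rfl
  have hs1 : ∀ j, s j ∈ O ∧ P (j + 1) (a - π * s j) := by
    intro j
    induction j with
    | zero =>
      refine ⟨zero_mem _, fun N => ?_⟩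
      obtain ⟨b, hb, hb'⟩ := h4 a ha ham N
      refine ⟨b, hb, ?_⟩
      change a - π * 0 - _ ∈ _
      simpa using hb'
    | succ j ih =>
      refine ⟨add_mem ih.1 (mul_mem (pow_mem h1 j) (hg1 _ _ ih.2)), ?_⟩
      convert hg2 _ _ ih.2 using 1
      rw [hs]
      ring
  obtain ⟨L, hL⟩ := lim s (fun j => by
    rw [hs, add_sub_cancel_left]
    exact Ideal.mul_mem_right _ _ (Ideal.pow_mem_pow hπ j))
  refine ⟨L, h3 L fun j => ⟨s j, (hs1 j).1, hL j⟩, sub_eq_zero.1 (haus fun j => ?_)⟩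
  obtain ⟨o, -, ho⟩ := (hs1 j).2 j
  have h6 : π ^ (j + 1) * o ∈ maximalIdeal R ^ j :=
    Ideal.mul_mem_right _ _ (mem_pow_le (Nat.le_succ j) (Ideal.pow_mem_pow hπ _))
  convert sub_mem (add_mem ho h6) (Ideal.mul_mem_left _ π (hL j)) using 1
  ring

lemma unit_of_not_mem {O : Subring R} (h2 : ∀ x : R, ∃ a ∈ O, x - a ∈ maximalIdeal R)
    (h3 : ∀ L : R, (∀ j, ∃ u ∈ O, L - u ∈ maximalIdeal R ^ j) → L ∈ O) (o : O)
    (ho : (o : R) ∉ maximalIdeal R) : IsUnit o := by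
  obtain ⟨y, hy⟩ := (notMem_maximalIdeal.1 ho).exists_right_inv
  obtain ⟨a, ha, ha'⟩ := h2 y
  have hv : 1 - o * a ∈ maximalIdeal R := by
    convert Ideal.mul_mem_left _ (o : R) ha' using 1
    rw [mul_sub, hy]
  have hyO : y ∈ O := h3 y fun j => ⟨a * ∑ i ∈ Finset.range j, (1 - o * a) ^ i,
    mul_mem ha (sum_mem fun i _ => pow_mem (sub_mem (one_mem _) (mul_mem o.2 ha)) i), by
      have h5 := mul_neg_geom_sum (1 - o * a) j
      convert Ideal.mul_mem_left _ y (Ideal.pow_mem_pow hv j) using 1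
      linear_combination (-y) * h5 + (a * ∑ i ∈ Finset.range j, (1 - o * a) ^ i) * hy⟩
  exact IsUnit.of_mul_eq_one ⟨y, hyO⟩ (Subtype.ext hy)

lemma finite_over [IsNoetherianRing R] {π : R} (hπ : π ∈ maximalIdeal R) {O : Subring R}
    (h1 : π ∈ O) (h2 : ∀ x : R, ∃ a ∈ O, x - a ∈ maximalIdeal R)
    (h3 : ∀ L : R, (∀ j, ∃ u ∈ O, L - u ∈ maximalIdeal R ^ j) → L ∈ O)
    {t : ℕ} (ht : maximalIdeal R ^ t ≤ Ideal.span {π}) : Module.Finite O R := by
  have key : ∀ i, ∃ W : Submodule O R, W.FG ∧ ∀ x : R, ∃ w ∈ W, x - w ∈ maximalIdeal R ^ i := by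
    intro i
    induction i with
    | zero => exact ⟨⊥, Submodule.fg_bot, fun x => ⟨0, zero_mem _, by simp⟩⟩
    | succ i ih =>
      obtain ⟨W, hW, hW'⟩ := ih
      obtain ⟨s, g, hg⟩ := Submodule.fg_iff_exists_fin_generating_family.1
        (IsNoetherian.noetherian (maximalIdeal R ^ i : Ideal R))
      refine ⟨W ⊔ Submodule.span O (Set.range g),
        hW.sup (Submodule.fg_span (Set.finite_range g)), fun x => ?_⟩
      obtain ⟨w, hw, hw'⟩ := hW' x
      rw [← hg] at hw'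
      obtain ⟨r, hr⟩ := (Submodule.mem_span_range_iff_exists_fun R).1 hw'
      choose o ho ho' using fun l => h2 (r l)
      refine ⟨w + ∑ l, (⟨o l, ho l⟩ : O) • g l, Submodule.add_mem_sup hw (Submodule.sum_mem _
        fun l _ => Submodule.smul_mem _ _ (Submodule.subset_span ⟨l, rfl⟩)), ?_⟩
      rw [← sub_sub, ← hr, ← Finset.sum_sub_distrib]
      refine Ideal.sum_mem _ fun l _ => ?_
      change r l * g l - o l * g l ∈ _
      rw [← sub_mul]
      exact mul_mem_succ (ho' l) (hg ▸ Submodule.subset_span ⟨l, rfl⟩)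
  obtain ⟨W, hW, hW'⟩ := key t
  obtain ⟨s, g, hg⟩ := Submodule.fg_iff_exists_fin_generating_family.1 hW
  have hdec : ∀ x : R, ∃ (c : Fin s → O) (y : R), x = ∑ l, (c l : R) * g l + π * y := by
    intro x
    obtain ⟨w, hw, hw'⟩ := hW' x
    rw [← hg] at hw
    obtain ⟨c, hc⟩ := (Submodule.mem_span_range_iff_exists_fun O).1 hw
    obtain ⟨y, hy⟩ := Ideal.mem_span_singleton'.1 (ht hw')
    refine ⟨c, y, ?_⟩
    have : ∑ l, (c l : R) * g l = w := hc
    rw [this, mul_comm, hy]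
    ring
  choose c y hcy using hdec
  refine ⟨Submodule.fg_iff_exists_fin_generating_family.2 ⟨s, g, ?_⟩⟩
  rw [eq_top_iff]
  intro x _
  let z : ℕ → R := fun j => y^[j] x
  let u : Fin s → ℕ → R := fun l j => ∑ i ∈ Finset.range j, π ^ i * c (z i) l
  have hu : ∀ j, x = ∑ l, u l j * g l + π ^ j * z j := by
    intro j
    induction j with
    | zero => simp [u, z]
    | succ j ih =>
      have h5 : z (j + 1) = y (z j) := Function.iterate_succ_apply' y j x
      have h6 : ∑ l, u l (j + 1) * g l = ∑ l, u l j * g l + π ^ j * ∑ l, (c (z j) l : R) * g l := by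
        rw [Finset.mul_sum, ← Finset.sum_add_distrib]
        refine Finset.sum_congr rfl fun l _ => ?_
        simp only [u, Finset.sum_range_succ]
        ring
      rw [h5, h6]
      linear_combination ih + π ^ j * hcy (z j)
  choose L hL using fun l => lim (u l) (fun j => by
    simp only [u, Finset.sum_range_succ, add_sub_cancel_left]
    exact Ideal.mul_mem_right _ _ (Ideal.pow_mem_pow hπ j))
  have hLO : ∀ l, L l ∈ O := fun l => h3 _ fun j =>
    ⟨u l j, sum_mem fun i _ => mul_mem (pow_mem h1 i) (c (z i) l).2, hL l j⟩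
  refine (Submodule.mem_span_range_iff_exists_fun O).2 ⟨fun l => ⟨L l, hLO l⟩, ?_⟩
  change ∑ l, L l * g l = x
  refine sub_eq_zero.1 (haus fun j => ?_)
  have h7 : ∑ l, (L l - u l j) * g l ∈ maximalIdeal R ^ j :=
    Ideal.sum_mem _ fun l _ => Ideal.mul_mem_right _ _ (hL l j)
  convert sub_mem h7 (Ideal.mul_mem_right (z j) _ (Ideal.pow_mem_pow hπ j)) using 1
  simp only [sub_mul, Finset.sum_sub_distrib]
  linear_combination -(hu j)

/-- Cohen structure in dimension one. -/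
theorem exists_dvr [IsNoetherianRing R] {π : R} (hπ : π ∈ maximalIdeal R) (hnil : ∀ j, π ^ j ≠ 0)
    (c : ℤ) (hc : ((ringChar (ResidueField R) : ℕ) : R) = π * c)
    {t : ℕ} (ht : maximalIdeal R ^ t ≤ Ideal.span {π}) :
    ∃ (O : Subring R) (_ : IsDomain O), IsDiscreteValuationRing O ∧ Module.Finite O R := by
  obtain ⟨O, h1, h2, h3, h4⟩ := exists_pre hπ c hc
  have h5 := div_exact hπ hnil h1 h3 h4
  have h6 := unit_of_not_mem h2 h3
  let ϖ : O := ⟨π, h1⟩
  have hfac : ∀ x : O, x ≠ 0 → ∃ n : ℕ, Associated (ϖ ^ n) x := by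
    have key : ∀ N, ∀ x : O, (x : R) ∉ maximalIdeal R ^ N → ∃ n : ℕ, Associated (ϖ ^ n) x := by
      intro N
      induction N with
      | zero => intro x hx; simp at hx
      | succ N ih =>
        intro x hx
        by_cases hm : (x : R) ∈ maximalIdeal R
        · obtain ⟨b, hb, hb'⟩ := h5 x x.2 hm
          obtain ⟨n, hn⟩ := ih ⟨b, hb⟩ (fun h => hx (hb' ▸ mul_mem_succ hπ h))
          refine ⟨n + 1, ?_⟩
          have : x = ϖ * ⟨b, hb⟩ := Subtype.ext hb'
          rw [this, pow_succ']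
          exact hn.mul_left ϖ
        · exact ⟨0, by rw [pow_zero]; exact associated_one_iff_isUnit.2 (h6 x hm) |>.symm⟩
    intro x hx
    by_contra hcon
    refine hx (Subtype.ext (haus fun N => ?_))
    by_contra h
    exact hcon (key N x h)
  have hnil' : ∀ j, ϖ ^ j ≠ 0 := fun j h => hnil j (congrArg Subtype.val h)
  have : NoZeroDivisors O := ⟨fun {a b} hab => by
    by_contra hcon
    push Not at hcon
    obtain ⟨i, hi⟩ := hfac a hcon.1
    obtain ⟨j, hj⟩ := hfac b hcon.2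
    have := hi.mul_mul hj
    rw [hab, ← pow_add] at this
    exact hnil' _ ((associated_zero_iff_eq_zero _).1 this)⟩
  have hdom : IsDomain O := NoZeroDivisors.to_isDomain O
  have hnu : ¬ IsUnit ϖ := fun h => hπ (h.map O.subtype)
  refine ⟨O, hdom, IsDiscreteValuationRing.ofHasUnitMulPowIrreducibleFactorization
    ⟨ϖ, ⟨hnu, fun a b hab => ?_⟩, fun {x} hx => hfac x hx⟩, finite_over hπ h1 h2 h3 ht⟩
  by_contra hcon
  push Not at hcon
  have ha : (a : R) ∈ maximalIdeal R := by_contra fun h => hcon.1 (h6 a h)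
  obtain ⟨a', ha1, ha2⟩ := h5 a a.2 ha
  have h7 : a = ϖ * ⟨a', ha1⟩ := Subtype.ext ha2
  have h8 : ϖ ≠ 0 := by simpa using hnil' 1
  rw [h7, mul_assoc] at hab
  have h9 : (1 : O) = ⟨a', ha1⟩ * b := mul_left_cancel₀ h8 (by rw [mul_one]; exact hab)
  exact hcon.2 (IsUnit.of_mul_eq_one_right _ h9.symm)

end Pool.Agent.H274Z.RM
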