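import Mathlib

set_option autoImplicit false

namespace Pool.Agent.H274Z.RM

open Matrix

section cover
variable {O : Type*} [CommRing O] [IsLocalRing O] {D : Type*} [CommRing D] [IsNoetherianRing D]
  {S : Type*}

/-- A two-place Noetherian compactness principle. -/
theorem finite_cover (ev : S → D →+* O) (f h : S → D) (hf : ∀ p, IsUnit (ev p (f p)))
    (hh : ∀ p, ev p (h p) ≠ 0) :
    ∃ T : Set S, T.Finite ∧ ∀ r, ∃ p ∈ T, IsUnit (ev r (f p)) ∧ ev r (h p) ≠ 0 := by
  classical
  have key : ∀ I : Ideal D, ∃ T : Set S, T.Finite ∧ ∀ r, (∀ a ∈ I, ¬ IsUnit (ev r a)) →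
      ∃ p ∈ T, IsUnit (ev r (f p)) ∧ ev r (h p) ≠ 0 := by
    intro I
    induction I using IsNoetherian.induction with
    | _ I ih =>
      let Z : Set S := {r | ∀ a ∈ I, ¬ IsUnit (ev r a)}
      obtain ⟨t, ht1, ht2⟩ := (Submodule.fg_span_iff_fg_span_finset_subset (R := D) (h '' Z)).1
        (IsNoetherian.noetherian _)
      have h1 : ∀ x ∈ t, ∃ p ∈ Z, h p = x := fun x hx => ht1 hx
      choose! q hq1 hq2 using fun x : t => h1 x.1 x.2
      have h2 : ∀ x : t, I < I ⊔ Ideal.span {f (q x)} := by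
        intro x
        refine lt_of_le_of_ne le_sup_left fun he => ?_
        have : f (q x) ∈ I := by
          rw [he]
          exact Ideal.mem_sup_right (Ideal.mem_span_singleton_self _)
        exact hq1 x _ this (hf _)
      choose T hT1 hT2 using fun x : t => ih _ (h2 x)
      refine ⟨Set.range q ∪ ⋃ x, T x, (Set.finite_range q).union (Set.finite_iUnion hT1), ?_⟩
      intro r hr
      have h3 : ∃ x : t, ev r (h (q x)) ≠ 0 := by
        by_contra hcon
        push Not at hcon
        have h4 : h r ∈ Submodule.span D (t : Set D) := by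
          rw [← ht2]
          exact Submodule.subset_span ⟨r, hr, rfl⟩
        have h5 : Submodule.span D (t : Set D) ≤ RingHom.ker (ev r) := by
          rw [Submodule.span_le]
          intro x hx
          have := hcon ⟨x, hx⟩
          rw [hq2] at this
          exact this
        exact hh r (h5 h4)
      obtain ⟨x, hx⟩ := h3
      by_cases hu : IsUnit (ev r (f (q x)))
      · exact ⟨q x, Or.inl ⟨x, rfl⟩, hu, hx⟩
      · obtain ⟨p, hp1, hp2⟩ := hT2 x r (by
          have h6 : I ⊔ Ideal.span {f (q x)} ≤ (IsLocalRing.maximalIdeal O).comap (ev r) := by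
            refine sup_le (fun a ha => hr a ha) ?_
            rw [Ideal.span_le]
            rintro _ rfl
            exact hu
          intro a ha
          exact h6 ha)
        exact ⟨p, Or.inr (Set.mem_iUnion.2 ⟨x, hp1⟩), hp2⟩
  obtain ⟨T, hT1, hT2⟩ := key ⊥
  refine ⟨T, hT1, fun r => hT2 r ?_⟩
  intro a ha
  rw [Ideal.mem_bot.1 ha, map_zero]
  exact not_isUnit_zero

end cover

section homotopy
variable {O : Type*} [CommRing O] [IsDomain O] [IsPrincipalIdealRing O]

/-- A saturated submodule of a finite free module has a projection onto it. -/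
lemma exists_proj {V : Type*} [AddCommGroup V] [Module O V] [Module.Finite O V]
    (K : Submodule O V) (hK : ∀ (c : O) (v : V), c ≠ 0 → c • v ∈ K → v ∈ K) :
    ∃ P : V →ₗ[O] V, (∀ v, P v ∈ K) ∧ ∀ v ∈ K, P v = v := by
  have : Module.IsTorsionFree O (V ⧸ K) := by
    refine Module.IsTorsionFree.of_smul_eq_zero fun c x hx => ?_
    by_cases hc : c = 0
    · exact Or.inl hc
    · obtain ⟨v, rfl⟩ := K.mkQ_surjective x
      right
      rw [← map_smul] at hx
      exact (Submodule.Quotient.mk_eq_zero K).2 (hK c v hc ((Submodule.Quotient.mk_eq_zero K).1 hx))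
  obtain ⟨σ, hσ⟩ := Module.projective_lifting_property K.mkQ (LinearMap.id) K.mkQ_surjective
  refine ⟨LinearMap.id - σ ∘ₗ K.mkQ, fun v => ?_, fun v hv => ?_⟩
  · rw [← Submodule.Quotient.mk_eq_zero, ← Submodule.mkQ_apply]
    have := LinearMap.congr_fun hσ (K.mkQ v)
    simp only [LinearMap.comp_apply, LinearMap.id_apply] at this
    simp only [LinearMap.sub_apply, LinearMap.id_apply, LinearMap.comp_apply, map_sub, this,
      sub_self]
  · have : K.mkQ v = 0 := (Submodule.Quotient.mk_eq_zero K).2 hv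
    simp [this]

lemma exists_homotopy {V0 V1 V2 : Type*} [AddCommGroup V0] [Module O V0] [AddCommGroup V1]
    [Module O V1] [Module.Finite O V1] [Module.IsTorsionFree O V1] [AddCommGroup V2] [Module O V2]
    [Module.Finite O V2] [Module.IsTorsionFree O V2]
    (ψ : V0 →ₗ[O] V1) (δ : V1 →ₗ[O] V2) (hex : ∀ v, δ v = 0 → ∃ u, ψ u = v) :
    ∃ (P : V1 →ₗ[O] V1) (s : V1 →ₗ[O] V0) (t : V2 →ₗ[O] V1) (w : O), w ≠ 0 ∧
      (∀ v, P (P v) = P v) ∧ (∀ v, ψ (s v) = P v) ∧ ∀ v, t (δ v) + w • P v = w • v := by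
  obtain ⟨P, hP1, hP2⟩ := exists_proj (LinearMap.ker δ) (by
    intro c v hc hv
    rw [LinearMap.mem_ker, map_smul] at hv
    exact (smul_eq_zero.1 hv).resolve_left hc)
  have hsurj : Function.Surjective (ψ.rangeRestrict) := ψ.surjective_rangeRestrict
  let P' : V1 →ₗ[O] LinearMap.range ψ := P.codRestrict _ (fun v => hex _ (hP1 v))
  obtain ⟨s, hs⟩ := Module.projective_lifting_property ψ.rangeRestrict P' hsurj
  -- the saturation of the image of `δ`
  let N : Submodule O V2 :=
    { carrier := {y | ∃ c : O, c ≠ 0 ∧ c • y ∈ LinearMap.range δ}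
      add_mem' := by
        rintro a b ⟨c, hc, ha⟩ ⟨d, hd, hb⟩
        refine ⟨c * d, mul_ne_zero hc hd, ?_⟩
        rw [smul_add]
        refine add_mem ?_ ?_
        · rw [mul_comm, mul_smul]; exact Submodule.smul_mem _ _ ha
        · rw [mul_smul]; exact Submodule.smul_mem _ _ hb
      zero_mem' := ⟨1, one_ne_zero, by simp⟩
      smul_mem' := by
        rintro c a ⟨d, hd, ha⟩
        refine ⟨d, hd, ?_⟩
        rw [smul_comm]
        exact Submodule.smul_mem _ _ ha }
  obtain ⟨Q, hQ1, hQ2⟩ := exists_proj N (by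
    rintro c v hc ⟨d, hd, hv⟩
    exact ⟨d * c, mul_ne_zero hd hc, by rwa [mul_smul]⟩)
  obtain ⟨w, hw, hwN⟩ : ∃ w : O, w ≠ 0 ∧ ∀ y ∈ N, w • y ∈ LinearMap.range δ := by
    obtain ⟨m, g, hg⟩ := Submodule.fg_iff_exists_fin_generating_family.1 (IsNoetherian.noetherian N)
    have h1 : ∀ i, g i ∈ N := fun i => hg ▸ Submodule.subset_span ⟨i, rfl⟩
    choose c hc1 hc2 using h1
    refine ⟨∏ i, c i, Finset.prod_ne_zero_iff.2 fun i _ => hc1 i, ?_⟩
    intro y hy
    rw [← hg] at hy
    induction hy using Submodule.span_induction with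
    | mem x hx =>
      obtain ⟨i, rfl⟩ := hx
      rw [← Finset.prod_erase_mul _ _ (Finset.mem_univ i), mul_smul]
      exact Submodule.smul_mem _ _ (hc2 i)
    | zero => simp
    | add x y _ _ hx hy => rw [smul_add]; exact add_mem hx hy
    | smul a x _ hx => rw [smul_comm]; exact Submodule.smul_mem _ _ hx
  let Q' : V2 →ₗ[O] LinearMap.range δ := (w • Q).codRestrict _ (fun y => hwN _ (hQ1 y))
  obtain ⟨t0, ht0⟩ := Module.projective_lifting_property δ.rangeRestrict Q'
    δ.surjective_rangeRestrict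
  refine ⟨P, s, (LinearMap.id - P) ∘ₗ t0, w, hw, fun v => hP2 _ (hP1 v), fun v => ?_, fun v => ?_⟩
  · exact congrArg Subtype.val (LinearMap.congr_fun hs v)
  · have h1 : δ (t0 (δ v)) = w • δ v := by
      have := congrArg Subtype.val (LinearMap.congr_fun ht0 (δ v))
      simp only [LinearMap.comp_apply, LinearMap.codRestrict_apply, LinearMap.smul_apply,
        Q'] at this
      rw [hQ2 (δ v) ⟨1, one_ne_zero, by simp⟩] at this
      exact this
    have h2 : t0 (δ v) - w • v ∈ LinearMap.ker δ := by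
      rw [LinearMap.mem_ker, map_sub, map_smul, h1, sub_self]
    have h3 := hP2 _ h2
    rw [map_sub, map_smul] at h3
    simp only [LinearMap.comp_apply, LinearMap.sub_apply, LinearMap.id_apply]
    rw [← sub_eq_zero]
    rw [← sub_eq_zero] at h3
    rw [← neg_eq_zero, ← h3]
    abel

end homotopy

section lift
variable {O : Type*} [CommRing O] [IsDomain O] [IsPrincipalIdealRing O]
  {D : Type*} [CommRing D] [Algebra O D] {S : Type*}
  {ι0 ι1 ι2 : Type} [Fintype ι0] [Fintype ι1] [Fintype ι2] [DecidableEq ι0] [DecidableEq ι1]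
  [DecidableEq ι2]

/-- Lifting a kernel vector from a point where the complex is exact to a neighbourhood. -/
theorem lift_kernel (ev : S → D →ₐ[O] O) (Ψ : Matrix ι1 ι0 D) (Δ : Matrix ι2 ι1 D)
    (h0 : ∀ r v, Δ.map (ev r) *ᵥ (Ψ.map (ev r) *ᵥ v) = 0) (p : S)
    (hex : ∀ v, Δ.map (ev p) *ᵥ v = 0 → ∃ u, Ψ.map (ev p) *ᵥ u = v) (e : ι0 → O)
    (he : Ψ.map (ev p) *ᵥ e = 0) :
    ∃ (g : ι0 → D) (h : D), (∀ x, ev p (g x) = e x) ∧ ev p h ≠ 0 ∧
      ∀ r, ev r h ≠ 0 → Ψ.map (ev r) *ᵥ (fun x => ev r (g x)) = 0 := by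
  obtain ⟨P, s, t, w, hw, hP, hs, ht⟩ := exists_homotopy (Matrix.toLin' (Ψ.map (ev p)))
    (Matrix.toLin' (Δ.map (ev p))) hex
  let c : O →+* D := algebraMap O D
  let Pm := LinearMap.toMatrix' P
  let sm := LinearMap.toMatrix' s
  let tm := LinearMap.toMatrix' t
  have hPm : ∀ v, Pm *ᵥ v = P v := fun v => LinearMap.toMatrix'_mulVec P v
  have hsm : ∀ v, sm *ᵥ v = s v := fun v => LinearMap.toMatrix'_mulVec s v
  have htm : ∀ v, tm *ᵥ v = t v := fun v => LinearMap.toMatrix'_mulVec t v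
  let A : Matrix ι1 ι1 D := Ψ * sm.map c + (1 - Pm).map c
  let B : Matrix ι1 ι1 D := tm.map c * Δ + (w • Pm).map c
  have hmap : ∀ {a b : Type} (r : S) (X : Matrix a b O), (X.map c).map (ev r) = X := by
    intro a b r X
    ext i j
    simp [c]
  have hA : ∀ r, A.map (ev r) = Ψ.map (ev r) * sm + (1 - Pm) := by
    intro r
    have h1 : A.map (ev r) = (Ψ * sm.map c).map (ev r) + ((1 - Pm).map c).map (ev r) :=
      Matrix.map_add _ (map_add (ev r)) _ _
    rw [h1, Matrix.map_mul, hmap, hmap]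
  have hB : ∀ r, B.map (ev r) = tm * Δ.map (ev r) + w • Pm := by
    intro r
    have h1 : B.map (ev r) = (tm.map c * Δ).map (ev r) + ((w • Pm).map c).map (ev r) :=
      Matrix.map_add _ (map_add (ev r)) _ _
    rw [h1, Matrix.map_mul, hmap, hmap]
  have hAp : A.map (ev p) = 1 := by
    rw [hA]
    refine Matrix.ext_iff_mulVec.2 fun v => ?_
    rw [add_mulVec, ← mulVec_mulVec, hsm, sub_mulVec, hPm, one_mulVec]
    have := hs v
    rw [Matrix.toLin'_apply] at this
    rw [this]; abel
  have hBp : B.map (ev p) = w • (1 : Matrix ι1 ι1 O) := by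
    rw [hB]
    refine Matrix.ext_iff_mulVec.2 fun v => ?_
    rw [add_mulVec, ← mulVec_mulVec, htm, smul_mulVec, hPm, smul_mulVec, one_mulVec]
    have := ht v
    rwa [Matrix.toLin'_apply] at this
  let eD : ι0 → D := fun x => c (e x)
  let g : ι0 → D := A.det • eD - sm.map c *ᵥ (A.adjugate *ᵥ (Ψ *ᵥ eD))
  have hvec : ∀ {a b : Type} [Fintype b] (r : S) (X : Matrix a b D) (v : b → D),
      (fun x => ev r ((X *ᵥ v) x)) = X.map (ev r) *ᵥ (fun x => ev r (v x)) := by
    intro a b _ r X v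
    funext x
    exact RingHom.map_mulVec (ev r : D →+* O) X v x
  have heD : ∀ r, (fun x => ev r (eD x)) = e := by
    intro r; funext x; simp [eD, c]
  have hg : ∀ r, (fun x => ev r (g x)) = (A.map (ev r)).det • e -
      sm *ᵥ ((A.map (ev r)).adjugate *ᵥ (Ψ.map (ev r) *ᵥ e)) := by
    intro r
    have h1 : (A.map (ev r)).det = ev r A.det := ((ev r : D →+* O).map_det A).symm
    have h2 : (A.map (ev r)).adjugate = A.adjugate.map (ev r) :=
      ((ev r : D →+* O).map_adjugate A).symm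
    have h3 := hvec r (sm.map c) (A.adjugate *ᵥ (Ψ *ᵥ eD))
    rw [hvec r A.adjugate, hvec r Ψ, heD, hmap] at h3
    rw [h1, h2, ← h3]
    funext x
    simp [g, eD, c]
  refine ⟨g, B.det, fun x => ?_, ?_, fun r hr => ?_⟩
  · have := congrFun (hg p) x
    rw [this, hAp, he]
    simp
  · have h1 : ev p B.det = (B.map (ev p)).det := (ev p : D →+* O).map_det B
    rw [h1, hBp, det_smul, det_one, mul_one]
    exact pow_ne_zero _ hw
  · have h1 : ev r B.det = (B.map (ev r)).det := (ev r : D →+* O).map_det B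
    rw [h1] at hr
    rw [hg]
    set z := (A.map (ev r)).adjugate *ᵥ (Ψ.map (ev r) *ᵥ e) with hz
    have h2 : A.map (ev r) *ᵥ z = (A.map (ev r)).det • (Ψ.map (ev r) *ᵥ e) := by
      rw [hz, mulVec_mulVec, mul_adjugate, smul_mulVec, one_mulVec]
    have h3 : Ψ.map (ev r) *ᵥ ((A.map (ev r)).det • e - sm *ᵥ z) = z - P z := by
      rw [mulVec_sub, mulVec_smul, ← h2, hA, add_mulVec, ← mulVec_mulVec, sub_mulVec, hPm,
        one_mulVec]
      abel
    have h4 : B.map (ev r) *ᵥ (z - P z) = 0 := by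
      rw [hB, add_mulVec, ← mulVec_mulVec, smul_mulVec, hPm, map_sub, hP, sub_self, smul_zero,
        ← h3, h0, mulVec_zero, add_zero]
    rw [h3]
    exact Matrix.eq_zero_of_mulVec_eq_zero hr h4

end lift

end Pool.Agent.H274Z.RM
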