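import Mathlib

set_option autoImplicit false

namespace Pool.Agent.H274Z.RM

universe u

section
variable {R : Type*} [CommRing R]

lemma gens_of_length (L : ℕ) : ∀ (Q : Type u) [AddCommGroup Q] [Module R Q],
    Module.length R Q ≤ L → ∃ v : Fin L → Q, Submodule.span R (Set.range v) = ⊤ := by
  induction L with
  | zero =>
    intro Q _ _ h
    have : Subsingleton Q := Module.length_eq_zero_iff.1 (le_antisymm h (by simp))
    exact ⟨fun i => 0, Subsingleton.elim _ _⟩
  | succ L ih =>
    intro Q _ _ h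
    by_cases hQ : Subsingleton Q
    · exact ⟨fun i => 0, Subsingleton.elim _ _⟩
    rw [not_subsingleton_iff_nontrivial] at hQ
    obtain ⟨x, hx⟩ := exists_ne (0 : Q)
    let N := Submodule.span R {x}
    have h1 := Module.length_eq_add_of_exact N.subtype N.mkQ N.subtype_injective N.mkQ_surjective
      (LinearMap.exact_subtype_mkQ N)
    have : Nontrivial N := ⟨⟨⟨x, Submodule.mem_span_singleton_self x⟩, 0, by simpa using hx⟩⟩
    have h2 : 1 ≤ Module.length R N := Order.one_le_iff_pos.2 Module.length_pos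
    have h3 : Module.length R (Q ⧸ N) ≤ L := by
      have h4 : 1 + Module.length R (Q ⧸ N) ≤ 1 + (L : ℕ∞) := by
        calc 1 + Module.length R (Q ⧸ N) ≤ Module.length R N + Module.length R (Q ⧸ N) := by gcongr
          _ = Module.length R Q := h1.symm
          _ ≤ ((L + 1 : ℕ) : ℕ∞) := h
          _ = 1 + L := by push_cast; ring
      exact (ENat.add_le_add_iff_left (by simp)).1 h4
    obtain ⟨v, hv⟩ := ih (Q ⧸ N) h3
    choose w hw using fun i => N.mkQ_surjective (v i)
    refine ⟨Fin.cons x w, ?_⟩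
    rw [Fin.range_cons, Submodule.span_insert, eq_top_iff]
    intro y _
    have h5 : N.mkQ y ∈ Submodule.map N.mkQ (Submodule.span R (Set.range w)) := by
      rw [Submodule.map_span, ← Set.range_comp]
      have : N.mkQ ∘ w = v := funext hw
      rw [this, hv]
      trivial
    obtain ⟨z, hz, hz'⟩ := h5
    have h6 : y - z ∈ N := by
      rw [← Submodule.Quotient.mk_eq_zero, ← Submodule.mkQ_apply, map_sub, hz', sub_self]
    have : y = (y - z) + z := by abel
    rw [this]
    exact Submodule.add_mem_sup h6 hz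

variable {M : Type u} [AddCommGroup M] [Module R M]

/-- The submodule of multiples of the `j`-th power of `x`. -/
def NN (M : Type u) [AddCommGroup M] [Module R M] (x : R) (j : ℕ) : Submodule R M :=
  LinearMap.range (LinearMap.lsmul R M (x ^ j))

lemma mem_NN {x : R} {j : ℕ} {y : M} : y ∈ NN M x j ↔ ∃ z, x ^ j • z = y := Iff.rfl

lemma length_NN (x : R) (hx : IsSMulRegular M x) (j : ℕ) :
    Module.length R (M ⧸ NN M x j) = j * Module.length R (M ⧸ NN M x 1) := by
  induction j with
  | zero =>
    have : NN M x 0 = ⊤ := by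
      rw [eq_top_iff]; intro y _; exact ⟨y, by simp⟩
    have : Subsingleton (M ⧸ NN M x 0) := by
      rw [this]; infer_instance
    simp
  | succ j ih =>
    have h1 : NN M x 1 ≤ (NN M x (j + 1)).comap (LinearMap.lsmul R M (x ^ j)) := by
      rintro _ ⟨z, rfl⟩
      exact ⟨z, by simp only [LinearMap.lsmul_apply, smul_smul, pow_succ, pow_zero, one_mul]⟩
    have h2 : NN M x (j + 1) ≤ (NN M x j).comap LinearMap.id := by
      rintro _ ⟨z, rfl⟩
      exact ⟨x • z, by simp only [LinearMap.lsmul_apply, smul_smul, pow_succ, LinearMap.id_apply]⟩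
    let f := (NN M x 1).mapQ (NN M x (j + 1)) (LinearMap.lsmul R M (x ^ j)) h1
    let g := (NN M x (j + 1)).mapQ (NN M x j) LinearMap.id h2
    have hf : Function.Injective f := by
      rw [← LinearMap.ker_eq_bot, eq_bot_iff]
      intro y hy
      obtain ⟨y, rfl⟩ := Submodule.mkQ_surjective _ y
      have h3 : x ^ j • y ∈ NN M x (j + 1) := (Submodule.Quotient.mk_eq_zero _).1 hy
      obtain ⟨z, hz⟩ := mem_NN.1 h3
      rw [pow_succ, mul_smul] at hz
      have h4 : x • z = y := (hx.pow j) hz
      exact (Submodule.Quotient.mk_eq_zero _).2 ⟨z, by simpa using h4⟩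
    have hg : Function.Surjective g := by
      intro y
      obtain ⟨y, rfl⟩ := Submodule.mkQ_surjective _ y
      exact ⟨Submodule.Quotient.mk y, rfl⟩
    have he : Function.Exact f g := by
      intro y
      obtain ⟨y, rfl⟩ := Submodule.mkQ_surjective _ y
      constructor
      · intro hy
        obtain ⟨z, hz⟩ := mem_NN.1 ((Submodule.Quotient.mk_eq_zero (NN M x j)).1 hy)
        exact ⟨Submodule.Quotient.mk z, congrArg (NN M x (j + 1)).mkQ hz⟩
      · rintro ⟨z, hz⟩
        obtain ⟨z, rfl⟩ := Submodule.mkQ_surjective _ z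
        rw [← hz]
        exact (Submodule.Quotient.mk_eq_zero (NN M x j)).2 ⟨z, rfl⟩
    rw [Module.length_eq_add_of_exact f g hf hg he, ih]
    push_cast
    ring

lemma length_quot_mono {A B : Submodule R M} (h : A ≤ B) :
    Module.length R (M ⧸ B) ≤ Module.length R (M ⧸ A) :=
  Module.length_le_of_surjective (Submodule.factor h) (Submodule.factor_surjective h)

lemma length_NN_ne_top [IsNoetherianRing R] [Module.Finite R M] (x : R)
    [IsArtinianRing (R ⧸ Ideal.span {x})] : Module.length R (M ⧸ NN M x 1) ≠ ⊤ := by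
  have hT : Module.IsTorsionBySet R (M ⧸ NN M x 1) (Ideal.span {x} : Ideal R) := by
    rintro y ⟨a, ha⟩
    obtain ⟨y, rfl⟩ := Submodule.mkQ_surjective _ y
    obtain ⟨b, rfl⟩ := Ideal.mem_span_singleton'.1 ha
    refine (Submodule.Quotient.mk_eq_zero _).2 ⟨b • y, ?_⟩
    simp only [LinearMap.lsmul_apply, pow_one, smul_smul, mul_comm x b]
  let := hT.module
  have := hT.isScalarTower (S := R)
  have : Module.Finite (R ⧸ Ideal.span {x}) (M ⧸ NN M x 1) :=
    Module.Finite.of_restrictScalars_finite R _ _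
  have : IsArtinian R (M ⧸ NN M x 1) :=
    isArtinian_of_surjective_algebraMap (R := R ⧸ Ideal.span {x}) Ideal.Quotient.mk_surjective
  exact Module.length_ne_top

/-- A bound for the number of generators in terms of the multiplicity. -/
theorem gens_bound [IsLocalRing R] [IsNoetherianRing R] [Module.Finite R M] (x : R)
    (hxm : x ∈ IsLocalRing.maximalIdeal R) [IsArtinianRing (R ⧸ Ideal.span {x})]
    (hx : IsSMulRegular M x) (t : ℕ) (ht0 : 0 < t)
    (ht : IsLocalRing.maximalIdeal R ^ t ≤ Ideal.span {x}) (N : ℕ) (e : ℝ) (he : e ≤ N)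
    (hlim : Filter.Tendsto (fun n : ℕ => ((Module.length R (M ⧸ ((IsLocalRing.maximalIdeal R ^ n) •
      (⊤ : Submodule R M)))).toNat : ℝ) / (n : ℝ)) Filter.atTop (nhds e)) :
    ∃ v : Fin (t * N) → M, Submodule.span R (Set.range v) = ⊤ := by
  obtain ⟨L, hL⟩ := ENat.ne_top_iff_exists.1 (length_NN_ne_top (M := M) x)
  have hfin : ∀ n : ℕ, Module.length R (M ⧸ ((IsLocalRing.maximalIdeal R ^ n) •
      (⊤ : Submodule R M))) ≠ ⊤ := by
    intro n
    have h1 : NN M x n ≤ (IsLocalRing.maximalIdeal R ^ n) • (⊤ : Submodule R M) := by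
      rintro _ ⟨z, rfl⟩
      exact Submodule.smul_mem_smul (Ideal.pow_mem_pow hxm n) trivial
    refine ne_top_of_le_ne_top ?_ (length_quot_mono h1)
    rw [length_NN x hx, ← hL, ← Nat.cast_mul]
    exact ENat.natCast_ne_top _
  have hlow : ∀ j : ℕ, j * L ≤ (Module.length R (M ⧸ ((IsLocalRing.maximalIdeal R ^ (t * j)) •
      (⊤ : Submodule R M)))).toNat := by
    intro j
    have h1 : (IsLocalRing.maximalIdeal R ^ (t * j)) • (⊤ : Submodule R M) ≤ NN M x j := by
      rw [Submodule.smul_le]
      intro a ha y _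
      have h2 : IsLocalRing.maximalIdeal R ^ (t * j) ≤ Ideal.span {x ^ j} := by
        rw [pow_mul, ← Ideal.span_singleton_pow]
        exact Ideal.pow_right_mono ht j
      obtain ⟨b, rfl⟩ := Ideal.mem_span_singleton'.1 (h2 ha)
      exact ⟨b • y, by simp only [LinearMap.lsmul_apply, smul_smul, mul_comm b]⟩
    have h2 := length_quot_mono h1
    rw [length_NN x hx, ← hL, ← Nat.cast_mul] at h2
    have := ENat.toNat_le_toNat h2 (hfin _)
    rwa [ENat.toNat_coe] at this
  have hLe : (L : ℝ) / t ≤ e := by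
    have h1 : Filter.Tendsto (fun j : ℕ => t * j) Filter.atTop Filter.atTop :=
      Filter.tendsto_atTop.2 fun m => Filter.eventually_atTop.2 ⟨m, fun n hn => by nlinarith⟩
    refine ge_of_tendsto (hlim.comp h1) (Filter.eventually_atTop.2 ⟨1, fun j hj => ?_⟩)
    have h2 : (0 : ℝ) < j := by exact_mod_cast hj
    have h3 : (0 : ℝ) < t := by exact_mod_cast ht0
    have h4 : ((j * L : ℕ) : ℝ) ≤ _ := Nat.cast_le.2 (hlow j)
    simp only [Function.comp_apply]
    push_cast at h4 ⊢
    rw [div_le_div_iff₀ h3 (by positivity)]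
    nlinarith
  have hLN : L ≤ t * N := by
    have h3 : (0 : ℝ) < t := by exact_mod_cast ht0
    have := hLe.trans he
    rw [div_le_iff₀ h3] at this
    exact_mod_cast (by linarith : (L : ℝ) ≤ t * N)
  obtain ⟨v, hv⟩ := gens_of_length (R := R) (t * N) (M ⧸ NN M x 1) (by
    rw [← hL]; exact_mod_cast hLN)
  choose w hw using fun i => (NN M x 1).mkQ_surjective (v i)
  refine ⟨w, ?_⟩
  rw [eq_top_iff]
  refine Submodule.le_of_le_smul_of_le_jacobson_bot (I := IsLocalRing.maximalIdeal R)
    Module.Finite.fg_top (IsLocalRing.maximalIdeal_le_jacobson _) ?_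
  intro y _
  have h5 : (NN M x 1).mkQ y ∈ Submodule.map (NN M x 1).mkQ (Submodule.span R (Set.range w)) := by
    rw [Submodule.map_span, ← Set.range_comp]
    have : (NN M x 1).mkQ ∘ w = v := funext hw
    rw [this, hv]
    trivial
  obtain ⟨z, hz, hz'⟩ := h5
  have h6 : y - z ∈ NN M x 1 := by
    rw [← Submodule.Quotient.mk_eq_zero, ← Submodule.mkQ_apply, map_sub, hz', sub_self]
  obtain ⟨c, hc⟩ := mem_NN.1 h6
  have : y = z + x ^ 1 • c := by rw [hc]; abel
  rw [this, pow_one]
  exact Submodule.add_mem_sup hz (Submodule.smul_mem_smul hxm trivial)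

end

end Pool.Agent.H274Z.RM
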