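import Pool.Agent.H274Z.RM.Rep
import Pool.Agent.H274Z.RM.Len

set_option autoImplicit false

namespace Pool.Agent.H274Z.RM

open Matrix

universe u v

variable {O : Type v} [CommRing O] {R : Type u} [CommRing R] [Algebra O R] {n : ℕ}

/-- The module `M` is given by the matrix representation `ρ`. -/
def Realizes (M : Type u) [AddCommGroup M] [Module R M]
    (ρ : R →ₐ[O] Matrix (Fin n) (Fin n) O) : Prop :=
  ∃ e : M ≃+ (Fin n → O), ∀ (a : R) (x : M), e (a • x) = ρ a *ᵥ e x

/-- Carrier of the extension attached to a derivation. -/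
def Ex (M : Type u) : Type u := M × M

instance (M : Type u) [AddCommGroup M] : AddCommGroup (Ex M) :=
  inferInstanceAs (AddCommGroup (M × M))

theorem rigid_of_split {M : Type u} [AddCommGroup M] [Module R M]
    {ρ : R →ₐ[O] Matrix (Fin n) (Fin n) O} (h : Realizes M ρ)
    (hs : ∀ (E : Type u) [AddCommGroup E] [Module R E] (f : M →ₗ[R] E) (g : E →ₗ[R] M),
      Function.Injective f → Function.Surjective g → LinearMap.range f = LinearMap.ker g →
      ∃ s : M →ₗ[R] E, g ∘ₗ s = LinearMap.id) : Rigid ρ := by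
  obtain ⟨e, he⟩ := h
  intro β hβ
  have hβ1 : β 1 = 0 := by
    have := hβ 1 1
    simp only [mul_one, map_one, one_mul] at this
    exact left_eq_add.1 this
  let B : R → M → M := fun a y => e.symm (β a *ᵥ e y)
  have eB : ∀ a y, e (B a y) = β a *ᵥ e y := fun a y => e.apply_symm_apply _
  have B1 : ∀ y, B 1 y = 0 := fun y => e.injective (by rw [eB, hβ1, zero_mulVec, map_zero])
  have B0 : ∀ y, B 0 y = 0 := fun y => e.injective (by rw [eB, map_zero, zero_mulVec, map_zero])
  have Bz : ∀ a, B a 0 = 0 := fun a => e.injective (by rw [eB, map_zero, mulVec_zero])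
  have Badd : ∀ a y z, B a (y + z) = B a y + B a z := fun a y z =>
    e.injective (by rw [map_add, eB, eB, eB, map_add, mulVec_add])
  have Badd' : ∀ a b y, B (a + b) y = B a y + B b y := fun a b y =>
    e.injective (by rw [map_add e, eB, eB, eB, map_add, add_mulVec])
  have Bmul : ∀ a b y, B (a * b) y = a • B b y + B a (b • y) := fun a b y =>
    e.injective (by rw [map_add e, eB, he, eB, eB, he, hβ, add_mulVec, mulVec_mulVec,
      mulVec_mulVec])
  let inst : Module R (Ex M) :=
    { smul := fun a x => ((a • x.1 + B a x.2, a • x.2) : M × M)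
      one_smul := fun x => Prod.ext (show (1 : R) • x.1 + B 1 x.2 = x.1 by rw [B1]; simp)
        (show (1 : R) • x.2 = x.2 by simp)
      mul_smul := fun a b x => Prod.ext
        (show (a * b) • x.1 + B (a * b) x.2 = a • (b • x.1 + B b x.2) + B a (b • x.2) by
          rw [Bmul, smul_add, mul_smul, add_assoc])
        (show (a * b) • x.2 = a • b • x.2 from mul_smul _ _ _)
      smul_zero := fun a => Prod.ext (show a • (0 : M) + B a 0 = 0 by rw [Bz]; simp)
        (show a • (0 : M) = 0 by simp)
      smul_add := fun a x y => Prod.ext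
        (show a • (x.1 + y.1) + B a (x.2 + y.2) = (a • x.1 + B a x.2) + (a • y.1 + B a y.2) by
          rw [Badd, smul_add]; abel)
        (show a • (x.2 + y.2) = a • x.2 + a • y.2 from smul_add _ _ _)
      add_smul := fun a b x => Prod.ext
        (show (a + b) • x.1 + B (a + b) x.2 = (a • x.1 + B a x.2) + (b • x.1 + B b x.2) by
          rw [Badd', add_smul]; abel)
        (show (a + b) • x.2 = a • x.2 + b • x.2 from add_smul _ _ _)
      zero_smul := fun x => Prod.ext (show (0 : R) • x.1 + B 0 x.2 = 0 by rw [B0]; simp)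
        (show (0 : R) • x.2 = 0 by simp) }
  let f : M →ₗ[R] Ex M :=
    { toFun := fun x => ((x, 0) : M × M)
      map_add' := fun x y => Prod.ext rfl (show (0 : M) = 0 + 0 by simp)
      map_smul' := fun a x => Prod.ext (show a • x = a • x + B a 0 by rw [Bz]; simp)
        (show (0 : M) = a • 0 by simp) }
  let g : Ex M →ₗ[R] M :=
    { toFun := fun x => x.2
      map_add' := fun x y => rfl
      map_smul' := fun a x => rfl }
  obtain ⟨s, hs'⟩ := hs (Ex M) f g (fun x y hxy => congrArg Prod.fst hxy)
    (fun y => ⟨((0, y) : M × M), rfl⟩) (by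
      ext x
      constructor
      · rintro ⟨y, rfl⟩; rfl
      · intro hx
        exact ⟨x.1, Prod.ext rfl (show (0 : M) = x.2 from (show x.2 = 0 from hx).symm)⟩)
  have hs2 : ∀ y, (s y).2 = y := fun y => LinearMap.congr_fun hs' y
  have hσ : ∀ (a : R) y, (s (a • y)).1 = a • (s y).1 + B a y := by
    intro a y
    have h1 : (s (a • y)).1 = a • (s y).1 + B a (s y).2 := congrArg Prod.fst (s.map_smul a y)
    rw [h1, hs2]
  have hsc : ∀ (c : O) (w : Fin n → O), ρ (algebraMap O R c) *ᵥ w = c • w := by
    intro c w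
    rw [AlgHom.commutes, Algebra.algebraMap_eq_smul_one, smul_mulVec, one_mulVec]
  have hsym : ∀ (a : R) w, e.symm (ρ a *ᵥ w) = a • e.symm w := fun a w =>
    e.injective (by rw [he, e.apply_symm_apply, e.apply_symm_apply])
  let σ : (Fin n → O) →ₗ[O] (Fin n → O) :=
    { toFun := fun w => e (s (e.symm w)).1
      map_add' := fun w w' => by
        rw [map_add, map_add, ← map_add e]; rfl
      map_smul' := fun c w => by
        have h1 : β (algebraMap O R c) = 0 := by
          rw [Algebra.algebraMap_eq_smul_one, map_smul, hβ1, smul_zero]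
        rw [← hsc, hsym, hσ, map_add, he, eB, h1, zero_mulVec, add_zero, hsc]
        rfl }
  refine ⟨-LinearMap.toMatrix' σ, fun a => Matrix.ext_iff_mulVec.2 fun w => ?_⟩
  rw [sub_mulVec, ← mulVec_mulVec, ← mulVec_mulVec, neg_mulVec, neg_mulVec,
    LinearMap.toMatrix'_mulVec, LinearMap.toMatrix'_mulVec, mulVec_neg]
  have h2 : σ (ρ a *ᵥ w) = ρ a *ᵥ σ w + β a *ᵥ w := by
    change e (s (e.symm (ρ a *ᵥ w))).1 = ρ a *ᵥ e (s (e.symm w)).1 + β a *ᵥ w
    rw [hsym, hσ, map_add, he, eB, e.apply_symm_apply]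
  rw [h2]
  abel

theorem iso_of_conj {M N : Type u} [AddCommGroup M] [Module R M] [AddCommGroup N] [Module R N]
    {r p : R →ₐ[O] Matrix (Fin n) (Fin n) O} (hM : Realizes M r) (hN : Realizes N p)
    (g : Matrix (Fin n) (Fin n) O) (hg : IsUnit g.det) (h : ∀ a, r a * g = g * p a) :
    Nonempty (M ≃ₗ[R] N) := by
  obtain ⟨e, he⟩ := hM
  obtain ⟨e', he'⟩ := hN
  let φ : N →ₗ[R] M :=
    { toFun := fun y => e.symm (g *ᵥ e' y)
      map_add' := fun y z => by rw [map_add, mulVec_add, map_add]
      map_smul' := fun a y => e.injective (by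
        rw [e.apply_symm_apply, RingHom.id_apply, he, e.apply_symm_apply, he', mulVec_mulVec,
          mulVec_mulVec, h]) }
  have hu : IsUnit g := (Matrix.isUnit_iff_isUnit_det g).2 hg
  have h1 : Function.Injective φ := fun y z hyz =>
    e'.injective (Matrix.mulVec_injective_of_isUnit hu (e.symm.injective hyz))
  have h2 : Function.Surjective φ := by
    intro x
    obtain ⟨w, hw⟩ := (Matrix.mulVec_surjective_iff_isUnit.2 hu) (e x)
    refine ⟨e'.symm w, ?_⟩
    change e.symm (g *ᵥ e' (e'.symm w)) = x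
    rw [e'.apply_symm_apply, hw, e.symm_apply_apply]
  exact ⟨(LinearEquiv.ofBijective φ ⟨h1, h2⟩).symm⟩

theorem finite_rank [IsDomain O] [IsDiscreteValuationRing O] [Module.Finite O R] (n : ℕ) :
    ∃ T : Set (ModuleCat.{u} R), T.Finite ∧ ∀ (M : Type u) [AddCommGroup M] [Module R M]
      (ρ : R →ₐ[O] Matrix (Fin n) (Fin n) O), Realizes M ρ → Rigid ρ →
      ∃ F ∈ T, Nonempty (M ≃ₗ[R] F) := by
  let S : Set (R →ₐ[O] Matrix (Fin n) (Fin n) O) :=
    {ρ | Rigid ρ ∧ ∃ F : ModuleCat.{u} R, Realizes F ρ}
  obtain ⟨T, hT1, hT2⟩ := finite_classes S (fun ρ hρ => hρ.1)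
  choose F hF using fun p : S => p.2.2
  refine ⟨F '' T, hT1.image F, fun M _ _ ρ h1 h2 => ?_⟩
  obtain ⟨p, hp, g, hg1, hg2⟩ := hT2 ⟨ρ, h2, ModuleCat.of R M, h1⟩
  exact ⟨F p, ⟨p, hp, rfl⟩, iso_of_conj h1 (hF p) g hg1 hg2⟩

theorem exists_rep [IsDomain O] [IsDiscreteValuationRing O] [Module.Finite O R]
    {M : Type u} [AddCommGroup M] [Module R M] [Module.Finite R M] {π : O} (hπ : Irreducible π)
    (hreg : IsSMulRegular M (algebraMap O R π)) {m k : ℕ} (a : Fin m → R)
    (ha : Submodule.span O (Set.range a) = ⊤) (w : Fin k → M)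
    (hw : Submodule.span R (Set.range w) = ⊤) :
    ∃ n ≤ m * k, ∃ ρ : R →ₐ[O] Matrix (Fin n) (Fin n) O, Realizes M ρ := by
  let inst : Module O M := Module.compHom M (algebraMap O R)
  have hsm : ∀ (c : O) (x : M), c • x = algebraMap O R c • x := fun c x => rfl
  have : IsScalarTower O R M := ⟨fun c r x => by rw [hsm, Algebra.smul_def, mul_smul]⟩
  have : Module.Finite O M := Module.Finite.trans R M
  have : Module.IsTorsionFree O M := by
    refine Module.IsTorsionFree.of_smul_eq_zero fun c x hx => ?_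
    by_cases hc : c = 0
    · exact Or.inl hc
    right
    obtain ⟨j, u, rfl⟩ := IsDiscreteValuationRing.eq_unit_mul_pow_irreducible hc hπ
    rw [mul_smul] at hx
    have hx' : π ^ j • x = 0 := by
      have := congrArg (fun y => ((u⁻¹ : Oˣ) : O) • y) hx
      simpa only [smul_smul, ← mul_assoc, Units.inv_mul, one_mul, smul_zero] using this
    rw [hsm, map_pow] at hx'
    exact (hreg.pow j) (by simpa using hx')
  have hspan : Submodule.span O (Set.range fun x : Fin m × Fin k => a x.1 • w x.2) = ⊤ := by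
    rw [eq_top_iff]
    intro y _
    have h1 : ∀ (r : R) (j : Fin k),
        r • w j ∈ Submodule.span O (Set.range fun x : Fin m × Fin k => a x.1 • w x.2) := by
      intro r j
      have hr : r ∈ Submodule.span O (Set.range a) := ha ▸ trivial
      induction hr using Submodule.span_induction with
      | mem x hx =>
        obtain ⟨i, rfl⟩ := hx
        exact Submodule.subset_span ⟨(i, j), rfl⟩
      | zero => simp
      | add x y _ _ hx hy => rw [add_smul]; exact add_mem hx hy
      | smul c x _ hx => rw [smul_assoc]; exact Submodule.smul_mem _ _ hx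
    have hy : y ∈ Submodule.span R (Set.range w) := hw ▸ trivial
    obtain ⟨c, rfl⟩ := (Submodule.mem_span_range_iff_exists_fun R).1 hy
    exact Submodule.sum_mem _ fun j _ => h1 _ j
  have hrank := finrank_le_of_span_eq_top hspan
  rw [Fintype.card_prod, Fintype.card_fin, Fintype.card_fin] at hrank
  let b := Module.finBasis O M
  refine ⟨Module.finrank O M, hrank, (LinearMap.toMatrixAlgEquiv b).toAlgHom.comp
    (Algebra.lsmul O O M), b.equivFun.toAddEquiv, fun r x => ?_⟩
  exact (LinearMap.toMatrix_mulVec_repr b b (Algebra.lsmul O O M r) x).symm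

theorem main (O : Type v) [CommRing O] [IsDomain O] [IsDiscreteValuationRing O]
    (R : Type u) [CommRing R] [IsLocalRing R] [Algebra O R] [Module.Finite O R]
    (hdim : ringKrullDim R = 1) (N : ℕ) :
    ∃ (k : ℕ) (F : Fin k → ModuleCat.{u} R),
      ∀ (M : Type u) [AddCommGroup M] [Module R M],
        Module.Finite R M →
        (∃ rs : List R,
            (∀ r ∈ rs, r ∈ IsLocalRing.maximalIdeal R) ∧
            RingTheory.Sequence.IsRegular M rs ∧
            ((rs.length : WithBot ℕ∞) = ringKrullDim R) ∧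
            ∃ e : ℝ, e ≤ (N : ℝ) ∧
              Filter.Tendsto
                (fun n : ℕ =>
                  ((rs.length).factorial : ℝ) *
                    ((Module.length R
                        (M ⧸ ((IsLocalRing.maximalIdeal R ^ n) •
                          (⊤ : Submodule R M)))).toNat : ℝ) /
                    ((n : ℝ) ^ rs.length))
                Filter.atTop (nhds e)) →
        (∀ (E : Type u) [AddCommGroup E] [Module R E]
            (f : M →ₗ[R] E) (g : E →ₗ[R] M),
            Function.Injective f → Function.Surjective g →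
            LinearMap.range f = LinearMap.ker g →
            ∃ s : M →ₗ[R] E, g ∘ₗ s = LinearMap.id) →
        ∃ i : Fin k, Nonempty (M ≃ₗ[R] (F i)) := by
  obtain ⟨π, hπ⟩ := IsDiscreteValuationRing.exists_irreducible O
  have hmax : IsLocalRing.maximalIdeal O = Ideal.span {π} := hπ.maximalIdeal_eq
  have : IsNoetherianRing R := IsNoetherianRing.of_finite O R
  have hϖ : algebraMap O R π ∈ IsLocalRing.maximalIdeal R := by
    intro hu
    obtain ⟨c, hc⟩ := hu.exists_right_inv
    have h1 : (⊤ : Submodule O R) = ⊥ := by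
      refine Submodule.eq_bot_of_le_smul_of_le_jacobson_bot (IsLocalRing.maximalIdeal O) _
        Module.Finite.fg_top ?_ (IsLocalRing.maximalIdeal_le_jacobson _)
      intro y _
      have : y = π • (c * y) := by rw [Algebra.smul_def, ← mul_assoc, hc, one_mul]
      rw [this]
      exact Submodule.smul_mem_smul (hmax ▸ Ideal.mem_span_singleton_self π) trivial
    have h2 : (1 : R) ∈ (⊥ : Submodule O R) := h1 ▸ trivial
    exact one_ne_zero ((Submodule.mem_bot O).1 h2)
  have : IsArtinianRing (R ⧸ Ideal.span {algebraMap O R π}) := by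
    let : Field (O ⧸ IsLocalRing.maximalIdeal O) := Ideal.Quotient.field _
    have h1 := IsArtinianRing.of_finite (O ⧸ IsLocalRing.maximalIdeal O)
      (R ⧸ (IsLocalRing.maximalIdeal O).map (algebraMap O R))
    have h2 : (IsLocalRing.maximalIdeal O).map (algebraMap O R) = Ideal.span {algebraMap O R π} := by
      rw [hmax, Ideal.map_span, Set.image_singleton]
    rwa [h2] at h1
  obtain ⟨t, ht⟩ := IsLocalRing.exists_maximalIdeal_pow_le_of_isArtinianRing_quotient
    (Ideal.span {algebraMap O R π})
  have ht' : IsLocalRing.maximalIdeal R ^ (t + 1) ≤ Ideal.span {algebraMap O R π} :=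
    (Ideal.pow_le_pow_right (Nat.le_succ t)).trans ht
  obtain ⟨m, a, ha⟩ := Module.Finite.exists_fin (R := O) (M := R)
  choose T hT1 hT2 using finite_rank (O := O) (R := R)
  have hfin : (⋃ n ∈ Set.Iic (m * ((t + 1) * N)), T n).Finite :=
    (Set.finite_Iic _).biUnion fun n _ => hT1 n
  obtain ⟨k, F, -, hF⟩ := hfin.fin_param
  refine ⟨k, F, fun M _ _ hM ⟨rs, h1, h2, h3, e, he, hlim⟩ hs => ?_⟩
  rw [hdim] at h3
  have h4 : rs.length = 1 := by exact_mod_cast h3
  obtain ⟨x, rfl⟩ := List.length_eq_one_iff.1 h4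
  have hx : IsSMulRegular M x := ((RingTheory.Sequence.isRegular_cons_iff M x []).1 h2).1
  have hreg : IsSMulRegular M (algebraMap O R π) := by
    obtain ⟨c, hc⟩ := Ideal.mem_span_singleton'.1 (ht (Ideal.pow_mem_pow (h1 x (by simp)) t))
    have h5 := hx.pow t
    rw [← hc] at h5
    exact IsSMulRegular.of_mul h5
  obtain ⟨w, hw⟩ := gens_bound (algebraMap O R π) hϖ hreg (t + 1) (Nat.succ_pos t) ht' N e he
    (by simpa using hlim)
  obtain ⟨n, hn, ρ, hρ⟩ := exists_rep hπ hreg a ha w hw
  obtain ⟨G, hG1, hG2⟩ := hT2 n M ρ hρ (rigid_of_split hρ hs)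
  have h6 : G ∈ Set.range F := by
    rw [hF]
    exact Set.mem_biUnion hn hG1
  obtain ⟨i, rfl⟩ := h6
  exact ⟨i, hG2⟩

end Pool.Agent.H274Z.RM
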