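import Pool.Agent.H274Z.RM.Main
import Pool.Agent.H274Z.RM.Cohen

set_option autoImplicit false

namespace Pool.Agent.H274Z.RM

open Matrix IsLocalRing

universe u v

theorem exists_rep' {O : Type v} [CommRing O] {R : Type u} [CommRing R] [Algebra O R]
    [IsDomain O] [IsDiscreteValuationRing O] [Module.Finite O R]
    {M : Type u} [AddCommGroup M] [Module R M] [Module.Finite R M]
    (hreg : ∀ c : O, c ≠ 0 → IsSMulRegular M (algebraMap O R c)) {m k : ℕ} (a : Fin m → R)
    (ha : Submodule.span O (Set.range a) = ⊤) (w : Fin k → M) (c : R) (hc : IsSMulRegular M c)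
    (hw : ∀ y, c • y ∈ Submodule.span R (Set.range w)) :
    ∃ n ≤ m * k, ∃ ρ : R →ₐ[O] Matrix (Fin n) (Fin n) O, Realizes M ρ := by
  let inst : Module O M := Module.compHom M (algebraMap O R)
  have hsm : ∀ (c : O) (x : M), c • x = algebraMap O R c • x := fun c x => rfl
  have : IsScalarTower O R M := ⟨fun c r x => by rw [hsm, Algebra.smul_def, mul_smul]⟩
  have : Module.Finite O M := Module.Finite.trans R M
  have : Module.IsTorsionFree O M := by
    refine Module.IsTorsionFree.of_smul_eq_zero fun c x hx => ?_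
    by_cases hc : c = 0
    · exact Or.inl hc
    right
    exact hreg c hc (by simpa [← hsm] using hx)
  let W := Submodule.span O (Set.range fun x : Fin m × Fin k => a x.1 • w x.2)
  have hspan : ∀ y ∈ Submodule.span R (Set.range w), y ∈ W := by
    intro y hy
    have h1 : ∀ (r : R) (j : Fin k), r • w j ∈ W := by
      intro r j
      have hr : r ∈ Submodule.span O (Set.range a) := ha ▸ trivial
      induction hr using Submodule.span_induction with
      | mem x hx =>
        obtain ⟨i, rfl⟩ := hx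
        exact Submodule.subset_span ⟨(i, j), rfl⟩
      | zero => simp
      | add x y _ _ hx hy => rw [add_smul]; exact add_mem hx hy
      | smul c x _ hx => rw [smul_assoc]; exact Submodule.smul_mem _ _ hx
    obtain ⟨c, rfl⟩ := (Submodule.mem_span_range_iff_exists_fun R).1 hy
    exact Submodule.sum_mem _ fun j _ => h1 _ j
  let φ : M →ₗ[O] W := (Algebra.lsmul O O M c).codRestrict W (fun y => hspan _ (hw y))
  have hφ : Function.Injective φ := fun y z hyz => hc (congrArg Subtype.val hyz)
  have hrank : Module.finrank O M ≤ m * k := by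
    refine (LinearMap.finrank_le_finrank_of_injective hφ).trans ?_
    have := finrank_range_le_card (R := O) (fun x : Fin m × Fin k => a x.1 • w x.2)
    rwa [Fintype.card_prod, Fintype.card_fin, Fintype.card_fin] at this
  let b := Module.finBasis O M
  refine ⟨Module.finrank O M, hrank, (LinearMap.toMatrixAlgEquiv b).toAlgHom.comp
    (Algebra.lsmul O O M), b.equivFun.toAddEquiv, fun r x => ?_⟩
  exact (LinearMap.toMatrix_mulVec_repr b b (Algebra.lsmul O O M r) x).symm

theorem main_rank (R : Type u) [CommRing R] [IsDomain R] [IsNoetherianRing R] [IsLocalRing R]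
    (hcpl : IsAdicComplete (maximalIdeal R) R) (hdim : ringKrullDim R = 1) (N : ℕ) :
    ∃ S : Set (Σ k : ℕ, Submodule R (Fin k → R)), S.Finite ∧
      ∀ (M : Type u) [AddCommGroup M] [Module R M],
        Module.Finite R M →
        (∃ rs : List R, (∀ r ∈ rs, r ∈ maximalIdeal R) ∧
            RingTheory.Sequence.IsWeaklyRegular M rs ∧
            ((rs.length : ℕ∞) : WithBot ℕ∞) = ringKrullDim R) →
        (∀ (E : Type u) [AddCommGroup E] [Module R E] (f : M →ₗ[R] E) (g : E →ₗ[R] M),
            Function.Injective f → Function.Surjective g →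
            LinearMap.range f = LinearMap.ker g →
            ∃ s : M →ₗ[R] E, g ∘ₗ s = LinearMap.id) →
        Module.finrank R M ≤ N →
        ∃ p ∈ S, Nonempty (M ≃ₗ[R] (Fin p.1 → R) ⧸ p.2) := by
  classical
  have : Ring.KrullDimLE 1 R := Ring.krullDimLE_iff.2 (by simp [hdim])
  have hpow : ∀ c : R, c ≠ 0 → ∃ t, maximalIdeal R ^ t ≤ Ideal.span {c} := by
    intro c hc
    refine Ideal.exists_pow_le_of_le_radical_of_fg ?_ (IsNoetherian.noetherian _)
    rw [Ideal.radical_eq_sInf, le_sInf_iff]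
    rintro P ⟨h1, h2⟩
    have h3 : P ≠ ⊥ := by
      rintro rfl
      exact hc (h1 (Ideal.mem_span_singleton_self c))
    exact (eq_maximalIdeal (h2.isMaximal_of_ne_bot h3)).ge
  obtain ⟨π, hπ, hπ0, c, hc⟩ : ∃ π ∈ maximalIdeal R, π ≠ 0 ∧
      ∃ c : ℤ, ((ringChar (ResidueField R) : ℕ) : R) = π * c := by
    by_cases h : ((ringChar (ResidueField R) : ℕ) : R) = 0
    · have h1 : maximalIdeal R ≠ ⊥ := by
        intro h2
        have := ringKrullDim_eq_zero_of_isField (isField_iff_maximalIdeal_eq.2 h2)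
        rw [hdim] at this
        exact one_ne_zero this
      obtain ⟨π, h2, h3⟩ := Submodule.exists_mem_ne_zero_of_ne_bot h1
      exact ⟨π, h2, h3, 0, by simp [h]⟩
    · refine ⟨_, ?_, h, 1, by simp⟩
      rw [← residue_eq_zero_iff, map_natCast]
      exact ringChar.Nat.cast_ringChar
  obtain ⟨t, ht⟩ := hpow π hπ0
  obtain ⟨O, _, _, _⟩ := exists_dvr hπ (fun j => pow_ne_zero j hπ0) c hc ht
  obtain ⟨m, a, ha⟩ := Module.Finite.exists_fin (R := O) (M := R)
  choose T hT1 hT2 using finite_rank (O := O) (R := R)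
  have hfin : (⋃ n ∈ Set.Iic (m * N), T n).Finite :=
    (Set.finite_Iic _).biUnion fun n _ => hT1 n
  have hpres : ∀ F : ModuleCat.{u} R, ∃ p : (Σ k : ℕ, Submodule R (Fin k → R)),
      Module.Finite R F → Nonempty (F ≃ₗ[R] (Fin p.1 → R) ⧸ p.2) := by
    intro F
    by_cases h : Module.Finite R F
    · obtain ⟨k, f, hf⟩ := Module.Finite.exists_fin' R F
      exact ⟨⟨k, LinearMap.ker f⟩, fun _ => ⟨(f.quotKerEquivOfSurjective hf).symm⟩⟩
    · exact ⟨⟨0, ⊥⟩, fun h' => absurd h' h⟩
  choose pr hpr using hpres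
  refine ⟨pr '' _, hfin.image pr, fun M _ _ hM ⟨rs, h1, h2, h3⟩ hs hN => ?_⟩
  rw [hdim] at h3
  have h4 : rs.length = 1 := by exact_mod_cast h3
  obtain ⟨x, rfl⟩ := List.length_eq_one_iff.1 h4
  have hx : IsSMulRegular M x := ((RingTheory.Sequence.isWeaklyRegular_cons_iff M x []).1 h2).1
  have hreg : ∀ c : R, c ≠ 0 → IsSMulRegular M c := by
    intro c hc
    obtain ⟨t, ht⟩ := hpow c hc
    obtain ⟨d, hd⟩ := Ideal.mem_span_singleton'.1 (ht (Ideal.pow_mem_pow (h1 x (by simp)) t))
    have h5 := hx.pow t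
    rw [← hd] at h5
    exact IsSMulRegular.of_mul h5
  obtain ⟨w, hw⟩ := exists_linearIndependent_of_le_finrank (le_refl (Module.finrank R M))
  have h6 : Module.finrank R (M ⧸ Submodule.span R (Set.range w)) = 0 := by
    have h7 := Submodule.finrank_quotient_add_finrank (Submodule.span R (Set.range w))
    rw [finrank_span_eq_card hw, Fintype.card_fin] at h7
    omega
  have h8 : Module.IsTorsion R (M ⧸ Submodule.span R (Set.range w)) :=
    Module.finrank_eq_zero_iff_isTorsion.1 h6
  obtain ⟨d, hd1, hd2⟩ := Submodule.annihilator_top_inter_nonZeroDivisors h8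
  obtain ⟨n, hn, ρ, hρ⟩ := exists_rep' (O := O)
    (fun c hc => hreg _ (fun h => hc (Subtype.ext h))) a ha w d
    (hreg d (nonZeroDivisors.ne_zero hd2)) (fun y => by
      have := Submodule.mem_annihilator.1 hd1 (Submodule.Quotient.mk y) trivial
      rwa [← Submodule.Quotient.mk_smul, Submodule.Quotient.mk_eq_zero] at this)
  obtain ⟨G, hG1, ⟨e⟩⟩ := hT2 n M ρ hρ (rigid_of_split hρ hs)
  obtain ⟨e'⟩ := hpr G (Module.Finite.equiv e)
  exact ⟨pr G, ⟨G, Set.mem_biUnion (hn.trans (Nat.mul_le_mul_left m hN)) hG1, rfl⟩,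
    ⟨e.trans e'⟩⟩

end Pool.Agent.H274Z.RM
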