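import Pool.Agent.H274Z.RM.Core

set_option autoImplicit false

namespace Pool.Agent.H274Z.RM

open Matrix

section defs
variable {A : Type*} [CommRing A] {n m l : ℕ}

def psi (X Y : Fin m → Matrix (Fin n) (Fin n) A) :
    (Fin n × Fin n → A) →ₗ[A] (Fin m × Fin n × Fin n → A) where
  toFun g x := ∑ j, (X x.1 x.2.1 j * g (j, x.2.2) - g (x.2.1, j) * Y x.1 j x.2.2)
  map_add' g g' := by
    funext x
    simp only [Pi.add_apply, ← Finset.sum_add_distrib]
    exact Finset.sum_congr rfl fun j _ => by ring
  map_smul' c g := by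
    funext x
    simp only [Pi.smul_apply, smul_eq_mul, RingHom.id_apply, Finset.mul_sum]
    exact Finset.sum_congr rfl fun j _ => by ring

def del (c : Fin l → Fin m → A) (μ : Fin m → Fin m → Fin m → A)
    (X Y : Fin m → Matrix (Fin n) (Fin n) A) :
    (Fin m × Fin n × Fin n → A) →ₗ[A]
      ((Fin l × Fin n × Fin n) ⊕ (Fin m × Fin m × Fin n × Fin n) → A) where
  toFun β := Sum.elim (fun x => ∑ i, c x.1 i * β (i, x.2))
    (fun x => ∑ i, μ x.1 x.2.1 i * β (i, x.2.2) -
      ∑ j, (X x.1 x.2.2.1 j * β (x.2.1, j, x.2.2.2) + β (x.1, x.2.2.1, j) * Y x.2.1 j x.2.2.2))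
  map_add' g g' := by
    funext x
    rcases x with x | x
    · simp only [Sum.elim_inl, Pi.add_apply, mul_add, Finset.sum_add_distrib]
    · simp only [Sum.elim_inr, Pi.add_apply, mul_add, add_mul, Finset.sum_add_distrib]
      ring
  map_smul' c g := by
    funext x
    rcases x with x | x
    · simp only [Sum.elim_inl, Pi.smul_apply, smul_eq_mul, RingHom.id_apply, Finset.mul_sum]
      exact Finset.sum_congr rfl fun j _ => by ring
    · simp only [Sum.elim_inr, Pi.smul_apply, smul_eq_mul, RingHom.id_apply, Finset.mul_sum,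
        mul_sub]
      congr 1
      · exact Finset.sum_congr rfl fun j _ => by ring
      · exact Finset.sum_congr rfl fun j _ => by ring

lemma toMatrix_map {B : Type*} [CommRing B] (φ : A →+* B) {ι κ : Type} [Fintype ι]
    [DecidableEq ι] (L : (ι → A) →ₗ[A] (κ → A)) (L' : (ι → B) →ₗ[B] (κ → B))
    (h : ∀ v x, φ (L v x) = L' (fun y => φ (v y)) x) :
    (LinearMap.toMatrix' L).map φ = LinearMap.toMatrix' L' := by
  ext i j
  simp only [Matrix.map_apply, LinearMap.toMatrix'_apply, h]
  have : (fun y => φ ((Pi.single j 1 : ι → A) y)) = Pi.single j 1 := by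
    funext y
    by_cases hy : y = j
    · subst hy; simp
    · simp [hy]
  rw [this]

end defs

variable {O : Type*} [CommRing O] {R : Type*} [CommRing R] [Algebra O R] {n : ℕ}

/-- Every derivation into the endomorphisms of the representation is inner. -/
def Rigid (ρ : R →ₐ[O] Matrix (Fin n) (Fin n) O) : Prop :=
  ∀ β : R →ₗ[O] Matrix (Fin n) (Fin n) O, (∀ a b, β (a * b) = ρ a * β b + β a * ρ b) →
    ∃ g, ∀ a, β a = ρ a * g - g * ρ a

theorem finite_classes [IsDomain O] [IsDiscreteValuationRing O] [Module.Finite O R]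
    (S : Set (R →ₐ[O] Matrix (Fin n) (Fin n) O)) (hS : ∀ ρ ∈ S, Rigid ρ) :
    ∃ T : Set S, T.Finite ∧ ∀ r : S, ∃ p ∈ T, ∃ g : Matrix (Fin n) (Fin n) O,
      IsUnit g.det ∧ ∀ a, r.1 a * g = g * p.1 a := by
  classical
  obtain ⟨m, a, ha⟩ := Module.Finite.exists_fin (R := O) (M := R)
  let q : (Fin m → O) →ₗ[O] R := Fintype.linearCombination O a
  have hq : ∀ v, q v = ∑ i, v i • a i := fun v => Fintype.linearCombination_apply O a v
  have hqs : Function.Surjective q := by
    rw [← LinearMap.range_eq_top, Fintype.range_linearCombination, ha]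
  obtain ⟨l, c, hc⟩ := Submodule.fg_iff_exists_fin_generating_family.1
    (IsNoetherian.noetherian (LinearMap.ker q))
  have hc0 : ∀ s, q (c s) = 0 := fun s =>
    (show c s ∈ LinearMap.ker q from hc ▸ Submodule.subset_span ⟨s, rfl⟩)
  choose μ hμ using fun i i' => hqs (a i * a i')
  let D : Subalgebra O (S → O) := Algebra.adjoin O
    (Set.range fun (x : Fin m × Fin n × Fin n) (r : S) => r.1 (a x.1) x.2.1 x.2.2)
  have : IsNoetherianRing D :=
    isNoetherianRing_of_fg (Subalgebra.fg_def.2 ⟨_, Set.finite_range _, rfl⟩)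
  let ev : S → D →ₐ[O] O := fun r => (Pi.evalAlgHom O (fun _ => O) r).comp D.val
  let U : Fin m → Matrix (Fin n) (Fin n) D := fun i => Matrix.of fun j k =>
    ⟨fun r => r.1 (a i) j k, Algebra.subset_adjoin ⟨(i, j, k), rfl⟩⟩
  have hU : ∀ r i j k, ev r (U i j k) = r.1 (a i) j k := fun r i j k => rfl
  have hext : ∀ (L L' : R →ₗ[O] Matrix (Fin n) (Fin n) O), (∀ i, L (a i) = L' (a i)) → L = L' :=
    fun L L' h => LinearMap.ext_on_range ha h
  have main : ∀ p : S, ∃ f h : D, IsUnit (ev p f) ∧ ev p h ≠ 0 ∧ ∀ r : S, IsUnit (ev r f) →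
      ev r h ≠ 0 → ∃ g : Matrix (Fin n) (Fin n) O, IsUnit g.det ∧ ∀ x, r.1 x * g = g * p.1 x := by
    intro p
    let κ : O →+* D := algebraMap O D
    let Ψ := LinearMap.toMatrix' (psi U (fun i => (p.1 (a i)).map κ))
    let Δ := LinearMap.toMatrix' (del (fun s i => κ (c s i)) (fun i j k => κ (μ i j k)) U
      (fun i => (p.1 (a i)).map κ))
    have hκ : ∀ r x, ev r (κ x) = x := fun r x => (ev r).commutes x
    have hΨ : ∀ r v, Ψ.map (ev r) *ᵥ v = psi (fun i => r.1 (a i)) (fun i => p.1 (a i)) v := by
      intro r v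
      have := toMatrix_map (ev r : D →+* O) (psi U (fun i => (p.1 (a i)).map κ))
        (psi (fun i => r.1 (a i)) (fun i => p.1 (a i))) (by
          intro v x
          simp only [psi, LinearMap.coe_mk, AddHom.coe_mk, map_sum, map_sub, map_mul,
            RingHom.coe_coe, hU, Matrix.map_apply, hκ])
      rw [← LinearMap.toMatrix'_mulVec, ← this]
      rfl
    have hΔ : ∀ r v, Δ.map (ev r) *ᵥ v = del c μ (fun i => r.1 (a i)) (fun i => p.1 (a i)) v := by
      intro r v
      have := toMatrix_map (ev r : D →+* O) (del (fun s i => κ (c s i)) (fun i j k => κ (μ i j k)) U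
        (fun i => (p.1 (a i)).map κ)) (del c μ (fun i => r.1 (a i)) (fun i => p.1 (a i))) (by
          rintro v (x | x) <;>
          simp only [del, LinearMap.coe_mk, AddHom.coe_mk, Sum.elim_inl, Sum.elim_inr, map_sum,
            map_sub, map_add, map_mul, RingHom.coe_coe, hU, Matrix.map_apply, hκ])
      rw [← LinearMap.toMatrix'_mulVec, ← this]
      rfl
    -- the inner derivation of a matrix
    let inn : S → Matrix (Fin n) (Fin n) O → R →ₗ[O] Matrix (Fin n) (Fin n) O := fun r G =>
      (LinearMap.mulRight O G) ∘ₗ r.1.toLinearMap - (LinearMap.mulLeft O G) ∘ₗ p.1.toLinearMap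
    have hinn : ∀ r G x, inn r G x = r.1 x * G - G * p.1 x := fun r G x => rfl
    have hpsi : ∀ (r : S) (v : Fin n × Fin n → O) i j k,
        psi (fun i => r.1 (a i)) (fun i => p.1 (a i)) v (i, j, k) =
          inn r (Matrix.of fun j k => v (j, k)) (a i) j k := by
      intro r v i j k
      simp only [psi, LinearMap.coe_mk, AddHom.coe_mk, hinn, Matrix.sub_apply, Matrix.mul_apply,
        Matrix.of_apply, Finset.sum_sub_distrib]
    have hsum : ∀ (B : R →ₗ[O] Matrix (Fin n) (Fin n) O) (v : Fin m → O) j k,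
        B (q v) j k = ∑ i, v i * B (a i) j k := by
      intro B v j k
      rw [hq, map_sum]
      simp only [map_smul, Matrix.sum_apply, Matrix.smul_apply, smul_eq_mul]
    obtain ⟨g, h, hg1, hh, hg2⟩ := lift_kernel ev Ψ Δ (by
      intro r v
      rw [hΨ, hΔ]
      funext x
      rcases x with ⟨s, j, k⟩ | ⟨i, i', j, k⟩
      · simp only [del, LinearMap.coe_mk, AddHom.coe_mk, Sum.elim_inl, hpsi, Pi.zero_apply]
        rw [← hsum, hc0, map_zero]; rfl
      · simp only [del, LinearMap.coe_mk, AddHom.coe_mk, Sum.elim_inr, hpsi, Pi.zero_apply]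
        rw [← hsum, hμ, Finset.sum_add_distrib, ← Matrix.mul_apply, ← Matrix.mul_apply,
          ← Matrix.add_apply, ← Matrix.sub_apply]
        have : inn r (Matrix.of fun j k => v (j, k)) (a i * a i') -
            (r.1 (a i) * inn r (Matrix.of fun j k => v (j, k)) (a i') +
              inn r (Matrix.of fun j k => v (j, k)) (a i) * p.1 (a i')) = 0 := by
          simp only [hinn, map_mul]
          noncomm_ring
        rw [this]; rfl) p (by
      intro β hβ
      rw [hΔ] at hβ
      let βm : Fin m → Matrix (Fin n) (Fin n) O := fun i => Matrix.of fun j k => β (i, j, k)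
      let B0 : (Fin m → O) →ₗ[O] Matrix (Fin n) (Fin n) O := Fintype.linearCombination O βm
      have hB0 : ∀ v j k, B0 v j k = ∑ i, v i * β (i, j, k) := by
        intro v j k
        simp only [B0, Fintype.linearCombination_apply, Matrix.sum_apply, Matrix.smul_apply,
          smul_eq_mul, βm, Matrix.of_apply]
      have hker : LinearMap.ker q ≤ LinearMap.ker B0 := by
        rw [← hc, Submodule.span_le]
        rintro _ ⟨s, rfl⟩
        change B0 (c s) = 0
        ext j k
        rw [hB0]
        exact congrFun hβ (Sum.inl (s, j, k))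
      let B : R →ₗ[O] Matrix (Fin n) (Fin n) O :=
        ((LinearMap.ker q).liftQ B0 hker) ∘ₗ (q.quotKerEquivOfSurjective hqs).symm.toLinearMap
      have hB : ∀ v, B (q v) = B0 v := by
        intro v
        have h1 : (q.quotKerEquivOfSurjective hqs).symm (q v) = Submodule.Quotient.mk v := by
          rw [LinearEquiv.symm_apply_eq]
          rfl
        simp only [B, LinearMap.comp_apply, LinearEquiv.coe_coe, h1, Submodule.liftQ_apply]
      have hBa : ∀ i, B (a i) = βm i := by
        intro i
        have h1 : q (Pi.single i 1) = a i := Fintype.linearCombination_apply_single O a i 1 |>.trans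
          (one_smul _ _)
        rw [← h1, hB]
        exact (Fintype.linearCombination_apply_single O βm i 1).trans (one_smul _ _)
      have hder0 : ∀ i i', B (a i * a i') = p.1 (a i) * B (a i') + B (a i) * p.1 (a i') := by
        intro i i'
        rw [← hμ, hB, hBa, hBa]
        ext j k
        have := congrFun hβ (Sum.inr (i, i', j, k))
        simp only [del, LinearMap.coe_mk, AddHom.coe_mk, Sum.elim_inr, Pi.zero_apply] at this
        rw [hB0, Matrix.add_apply, Matrix.mul_apply, Matrix.mul_apply, ← Finset.sum_add_distrib]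
        exact sub_eq_zero.1 this
      have hder1 : ∀ i y, B (a i * y) = p.1 (a i) * B y + B (a i) * p.1 y := by
        intro i
        have := hext (B ∘ₗ LinearMap.mulLeft O (a i))
          (LinearMap.mulLeft O (p.1 (a i)) ∘ₗ B + LinearMap.mulLeft O (B (a i)) ∘ₗ p.1.toLinearMap)
          (fun i' => hder0 i i')
        exact fun y => LinearMap.congr_fun this y
      have hder : ∀ x y, B (x * y) = p.1 x * B y + B x * p.1 y := by
        intro x y
        have := hext (B ∘ₗ LinearMap.mulRight O y)
          (LinearMap.mulRight O (B y) ∘ₗ p.1.toLinearMap + LinearMap.mulRight O (p.1 y) ∘ₗ B)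
          (fun i => hder1 i y)
        exact LinearMap.congr_fun this x
      obtain ⟨G, hG⟩ := hS p.1 p.2 B hder
      refine ⟨fun x => G x.1 x.2, ?_⟩
      rw [hΨ]
      funext ⟨i, j, k⟩
      rw [hpsi, hinn]
      have h2 : (Matrix.of fun j k => G j k) = G := rfl
      rw [h2, ← hG, hBa]
      rfl) (fun x => (1 : Matrix (Fin n) (Fin n) O) x.1 x.2) (by
      rw [hΨ]
      funext ⟨i, j, k⟩
      rw [hpsi, hinn]
      have h2 : (Matrix.of fun j k => (1 : Matrix (Fin n) (Fin n) O) j k) = 1 := rfl
      rw [h2, mul_one, one_mul, sub_self]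
      rfl)
    let Gm : Matrix (Fin n) (Fin n) D := Matrix.of fun j k => g (j, k)
    have hdet : ∀ r, ev r Gm.det = (Gm.map (ev r)).det := fun r => (ev r : D →+* O).map_det Gm
    refine ⟨Gm.det, h, ?_, hh, fun r hr1 hr2 => ⟨Gm.map (ev r), hdet r ▸ hr1, ?_⟩⟩
    · have : Gm.map (ev p) = 1 := by
        ext j k
        exact hg1 (j, k)
      rw [hdet, this, det_one]
      exact isUnit_one
    · have h1 := hg2 r hr2
      rw [hΨ] at h1
      have h2 : inn r (Gm.map (ev r)) = 0 := by
        refine hext _ _ fun i => ?_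
        ext j k
        have := congrFun h1 (i, j, k)
        rw [hpsi] at this
        exact this
      intro x
      have := LinearMap.congr_fun h2 x
      rw [hinn] at this
      exact sub_eq_zero.1 this
  choose f h hf hh hmain using main
  obtain ⟨T, hT1, hT2⟩ := finite_cover (fun r => (ev r : D →+* O)) f h hf hh
  refine ⟨T, hT1, fun r => ?_⟩
  obtain ⟨p, hp, h1, h2⟩ := hT2 r
  exact ⟨p, hp, hmain p r h1 h2⟩

end Pool.Agent.H274Z.RM
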