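import Mathlib

set_option autoImplicit false

namespace Pool.Agent.H274Z.RM

open Polynomial

variable {B k : Type*} [CommRing B] [Field k]

lemma sect_zero (f : B →+* k) (hf : Function.Surjective f)
    (h2 : ∀ x y, f x = 0 → f y = 0 → x * y = 0) [CharZero k] :
    ∃ σ : k →+* B, ∀ a, f (σ a) = a := by
  obtain ⟨s, hs⟩ := exists_isTranscendenceBasis ℚ k
  have := hs.isAlgebraic_field
  have : Algebra.FormallySmooth ℚ k := .of_algebraicIndependent_of_isSeparable hs.1
  have : Algebra.FormallySmooth ℤ ℚ := .of_isLocalization (nonZeroDivisors ℤ)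
  have : Algebra.FormallySmooth ℤ k := .comp ℤ ℚ k
  have hn : IsNilpotent (RingHom.ker f.toIntAlgHom) := by
    refine ⟨2, ?_⟩
    rw [pow_two, Ideal.zero_eq_bot, eq_bot_iff, Ideal.mul_le]
    intro x hx y hy
    exact h2 x y hx hy
  exact ⟨(Algebra.FormallySmooth.liftOfSurjective (AlgHom.id ℤ k) f.toIntAlgHom hf hn).toRingHom,
    fun a => Algebra.FormallySmooth.liftOfSurjective_apply (AlgHom.id ℤ k) f.toIntAlgHom hf hn a⟩

lemma sect_prime (f : B →+* k) (hf : Function.Surjective f)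
    (h2 : ∀ x y, f x = 0 → f y = 0 → x * y = 0) (p : ℕ) (hp : p.Prime) (hB : (p : B) = 0) :
    ∃ σ : k →+* B, ∀ a, f (σ a) = a := by
  have : Fact p.Prime := ⟨hp⟩
  have : Nontrivial B := f.domain_nontrivial
  have : CharP B p := (CharP.charP_iff_prime_eq_zero hp).2 hB
  have : CharP k p := (CharP.charP_iff_prime_eq_zero hp).2 (by rw [← map_natCast f, hB, map_zero])
  let P : Set (Subring B) := {F | (∀ b, b ^ p ∈ F) ∧ ∀ x ∈ F, f x = 0 → x = 0}
  have h0 : (frobenius B p).range ∈ P := by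
    refine ⟨fun b => ⟨b, rfl⟩, ?_⟩
    rintro _ ⟨b, rfl⟩ hb
    rw [frobenius_def] at hb ⊢
    rw [map_pow] at hb
    have hb' := pow_eq_zero_iff hp.ne_zero |>.1 hb
    obtain ⟨j, hj⟩ := Nat.exists_eq_add_of_le hp.two_le
    rw [hj, pow_add, pow_two, h2 b b hb' hb', zero_mul]
  obtain ⟨F, -, hF⟩ := zorn_le_nonempty₀ P (by
    intro c hc hch y hy
    refine ⟨sSup c, ⟨fun b => le_sSup hy ((hc hy).1 b), fun x hx => ?_⟩, fun z hz => le_sSup hz⟩
    obtain ⟨G, hG, hxG⟩ := (Subring.mem_sSup_of_directedOn ⟨y, hy⟩ hch.directedOn).1 hx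
    exact (hc hG).2 x hxG) _ h0
  have hF1 := hF.prop.1
  have hF2 := hF.prop.2
  have hunit : ∀ x : B, f x ≠ 0 → IsUnit x := by
    intro x hx
    obtain ⟨y, hy⟩ := hf (f x)⁻¹
    have h3 : f (1 - x * y) = 0 := by rw [map_sub, map_mul, hy, mul_inv_cancel₀ hx, map_one, sub_self]
    have h4 := h2 _ _ h3 h3
    exact IsUnit.of_mul_eq_one (y * (2 - x * y)) (by linear_combination -h4)
  have hfield : IsField F := by
    refine ⟨⟨0, 1, zero_ne_one⟩, mul_comm, fun {x} hx => ?_⟩
    obtain ⟨y, hy⟩ := (hunit x (fun h => hx (Subtype.ext (hF2 x x.2 h)))).exists_right_inv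
    obtain ⟨j, hj⟩ := Nat.exists_eq_add_of_le hp.one_le
    refine ⟨x ^ j * ⟨y ^ p, hF1 y⟩, Subtype.ext ?_⟩
    change (x : B) * ((x : B) ^ j * y ^ p) = 1
    rw [← mul_assoc, ← pow_succ', add_comm j 1, ← hj, ← mul_pow, hy, one_pow]
  let := hfield.toField
  let : Algebra F k := (f.comp F.subtype).toAlgebra
  have hsurj : Function.Surjective (f.comp F.subtype) := by
    intro a
    by_contra hcon
    obtain ⟨b, rfl⟩ := hf a
    let c : F := ⟨b ^ p, hF1 b⟩
    have hirr : Irreducible (X ^ p - C c) := by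
      refine X_pow_sub_C_irreducible_of_prime hp fun d hd => hcon ⟨d, ?_⟩
      have h1 : (f d) ^ p = (f b) ^ p := by
        rw [← map_pow, ← map_pow]
        exact congrArg (fun z : F => f z) hd
      exact frobenius_inj k p h1
    have hm : X ^ p - C c = minpoly F (f b) := by
      refine minpoly.eq_of_irreducible_of_monic hirr ?_ (monic_X_pow_sub_C c hp.ne_zero)
      rw [map_sub, map_pow, aeval_X, aeval_C, ← map_pow]
      exact sub_self _
    let F' : Subring B := (aeval b : F[X] →ₐ[F] B).toRingHom.range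
    have hle : F ≤ F' := fun x hx => ⟨C ⟨x, hx⟩, by
      change aeval b (C (⟨x, hx⟩ : F)) = x
      rw [aeval_C]; rfl⟩
    have hF' : F' ∈ P := by
      refine ⟨fun z => hle (hF1 z), ?_⟩
      rintro _ ⟨q, rfl⟩ hq
      change aeval b q = 0
      have h5 : aeval (f b) q = 0 := by
        rw [← hq]
        change _ = f (aeval b q)
        rw [aeval_def, aeval_def, hom_eval₂]
        rfl
      obtain ⟨r, rfl⟩ := hm ▸ minpoly.dvd F (f b) h5
      rw [map_mul, map_sub, map_pow, aeval_X, aeval_C]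
      change (b ^ p - b ^ p) * _ = 0
      rw [sub_self, zero_mul]
    have hb : b ∈ F := hF.2 hF' hle ⟨X, aeval_X b⟩
    exact hcon ⟨⟨b, hb⟩, rfl⟩
  have hinj : Function.Injective (f.comp F.subtype) := RingHom.injective _
  let e := RingEquiv.ofBijective _ ⟨hinj, hsurj⟩
  exact ⟨F.subtype.comp e.symm.toRingHom, fun a => e.apply_symm_apply a⟩

/-- A square-zero extension of a field, of the same characteristic, splits. -/
lemma sect (f : B →+* k) (hf : Function.Surjective f)
    (h2 : ∀ x y, f x = 0 → f y = 0 → x * y = 0) (hB : ((ringChar k : ℕ) : B) = 0) :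
    ∃ σ : k →+* B, ∀ a, f (σ a) = a := by
  rcases CharP.char_is_prime_or_zero k (ringChar k) with h | h
  · exact sect_prime f hf h2 _ h hB
  · have : CharP k 0 := h ▸ ringChar.charP k
    have := CharP.charP_to_charZero k
    exact sect_zero f hf h2

end Pool.Agent.H274Z.RM
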